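import Pool.Agent.Lib.BT.TDefs
import Pool.Agent.Lib.PD.Alg

/-! A class of topological groups: finite products of reductive groups over local fields. -/

namespace Pool.Agent.Lib.BT

open Matrix

/-- The class generated by reductive matrix groups over local fields under finite products and
isomorphisms of topological groups. -/
inductive Adm : (G : Type) → [Group G] → [TopologicalSpace G] → Prop
  /-- the special linear group of a non-archimedean local field -/
  | sl (K : Type) [NontriviallyNormedField K] [IsUltrametricDist K] [LocallyCompactSpace K]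
      (n : ℕ) : Adm (SpecialLinearGroup (Fin n) K)
  /-- special orthogonal, symplectic and special unitary groups of a non-archimedean local field
  of characteristic not two -/
  | form (K : Type) [NontriviallyNormedField K] [IsUltrametricDist K] [LocallyCompactSpace K]
      (n : ℕ) (h2 : (2 : K) ≠ 0) (s : K →+* K) (hs : ∀ x, ‖s x‖ = ‖x‖) (hs' : ∀ x, s (s x) = x)
      (J : Matrix (Fin n) (Fin n) K) (ε : K) (hJ : (J.map s)ᵀ = ε • J) (hd : J.det ≠ 0)
      (G : Subgroup (SpecialLinearGroup (Fin n) K))
      (hG : ∀ g, g ∈ G ↔ (g.1.map s)ᵀ * J * g.1 = J) : Adm G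
  /-- the stabiliser of a finite family of forms with closed orbit, over a non-archimedean local
  field -/
  | stab (K : Type) [NontriviallyNormedField K] [IsUltrametricDist K] [LocallyCompactSpace K]
      (n : ℕ) (ι : Type) [Finite ι] (a : ι → ℕ) (σ : ∀ i, Fin (a i) → K →+* K)
      (t : ∀ i, (Fin (a i) → Fin n) → K) (hσ : ∀ i j x, ‖σ i j x‖ = ‖x‖)
      (hcl : IsClosed (Set.range
        fun (g : SpecialLinearGroup (Fin n) K) i => act (σ i) (t i) g.1)) : Adm (stab σ t)
  /-- the real special linear group -/
  | slR (n : ℕ) : Adm (SpecialLinearGroup (Fin n) ℝ)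
  /-- real algebraic groups that are stable under transposition -/
  | alg (n : ℕ) (G : Subgroup (GL (Fin n) ℝ)) (hG : PD.IsAlgebraicGroup G)
      (hT : ∀ g ∈ G, ∃ h ∈ G, h.val = g.valᵀ) : Adm G
  /-- closed real matrix groups that are stable under transposition and positive square roots -/
  | real (n : ℕ) (G : Subgroup (GL (Fin n) ℝ)) (hG : PD.IsReductive G) : Adm G
  | prod (G H : Type) [Group G] [TopologicalSpace G] [Group H] [TopologicalSpace H] :
      Adm G → Adm H → Adm (G × H)
  | iso (G H : Type) [Group G] [TopologicalSpace G] [Group H] [TopologicalSpace H]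
      (e : G ≃ₜ* H) : Adm H → Adm G

end Pool.Agent.Lib.BT
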