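import Pool.Agent.Lib.BT.Blue2
import Pool.Agent.Lib.SD.TOP

/-! A closed orbit map is proper modulo the stabiliser. -/

noncomputable section

open Set

namespace Pool.Agent.Lib.BT

open Pool.Agent.Lib.SD Matrix

namespace BAIRE

lemma core {G W : Type} [Group G] [MetricSpace W] [CompleteSpace W] (A : G → W → W)
    (hA : ∀ g h w, A (g * h) w = A h (A g w)) (h1 : ∀ w, A 1 w = w) (hc : ∀ k, Continuous (A k))
    (x : W) (S : ℕ → Set G) (hS : ∀ m, IsClosed ((fun g => A g x) '' S m)) (hm : Monotone S)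
    (hU : ∀ g, ∃ m, g ∈ S m) (hk : ∀ m k, ∃ m', ∀ g ∈ S m, g * k ∈ S m')
    (hO : IsClosed (range fun g => A g x)) {C : Set W} (hC : IsCompact C) :
    ∃ m, ∀ g, A g x ∈ C → ∃ k ∈ S m, A k x = A g x := by
  set O := range fun g => A g x with hOdef
  have : CompleteSpace O := hO.completeSpace_coe
  have : Nonempty O := ⟨⟨_, 1, rfl⟩⟩
  let T : ℕ → Set O := fun m => Subtype.val ⁻¹' ((fun g => A g x) '' S m)
  obtain ⟨m₀, ⟨p₀, g₀, rfl⟩, hp⟩ := nonempty_interior_of_iUnion_of_closed (f := T)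
    (fun m => (hS m).preimage continuous_subtype_val) (eq_univ_of_forall fun ⟨_, g, e⟩ => by
      obtain ⟨m, hg⟩ := hU g
      exact mem_iUnion.2 ⟨m, g, hg, e⟩)
  have h2 : ∀ p : O, ∃ m, p ∈ interior (T m) := by
    rintro ⟨_, g, rfl⟩
    obtain ⟨m, hm'⟩ := hk m₀ (g₀⁻¹ * g)
    let B : O → O := fun w => ⟨A (g⁻¹ * g₀) w, by
      obtain ⟨_, u, rfl⟩ := w
      exact ⟨u * (g⁻¹ * g₀), hA _ _ _⟩⟩
    have hB : Continuous B := ((hc _).comp continuous_subtype_val).subtype_mk _
    refine ⟨m, mem_interior.2 ⟨B ⁻¹' interior (T m₀), fun w hw => ?_, isOpen_interior.preimage hB,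
      ?_⟩⟩
    · obtain ⟨s, hs, e⟩ := interior_subset hw
      refine ⟨_, hm' s hs, ?_⟩
      have e' : A s x = A (g⁻¹ * g₀) w := e
      change A (s * (g₀⁻¹ * g)) x = w
      rw [hA, e', ← hA, show g⁻¹ * g₀ * (g₀⁻¹ * g) = 1 by group, h1]
    · have e : B ⟨_, g, rfl⟩ = ⟨_, g₀, rfl⟩ := Subtype.ext (by
        change A (g⁻¹ * g₀) (A g x) = A g₀ x
        rw [← hA, mul_inv_cancel_left])
      rw [mem_preimage, e]
      exact hp
  obtain ⟨m, hm'⟩ := (hO.isClosedEmbedding_subtypeVal.isCompact_preimage hC).elim_directed_cover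
    (fun m => interior (T m)) (fun _ => isOpen_interior) (fun p _ => mem_iUnion.2 (h2 p))
    (Monotone.directed_le fun a b h => interior_mono (preimage_mono (image_mono (hm h))))
  exact ⟨m, fun g hg => interior_subset (s := T m) (hm' (a := ⟨_, g, rfl⟩) hg)⟩

variable {K : Type} [NontriviallyNormedField K] {n m : ℕ}

lemma cont_ring (σ : K →+* K) (h : ∀ x, ‖σ x‖ = ‖x‖) : Continuous σ :=
  (AddMonoidHomClass.isometry_of_norm σ h).continuous

lemma cont_left (σ : Fin m → K →+* K) (g : Matrix (Fin n) (Fin n) K) :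
    Continuous fun t => act σ t g := by
  unfold act
  fun_prop

lemma cont_right {σ : Fin m → K →+* K} (h : ∀ j x, ‖σ j x‖ = ‖x‖) (t : (Fin m → Fin n) → K) :
    Continuous (act σ t) :=
  continuous_pi fun _ => continuous_finsetSum _ fun _ _ => continuous_const.mul
    (continuous_finsetProd _ fun j _ => (cont_ring _ (h j)).comp (continuous_id.matrix_elem _ _))

end BAIRE

open BAIRE in
theorem stBAIRE : St_BAIRE := by
  intro K _ _ n ι _ a σ t hσ hO C
  have := Fintype.ofFinite ι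
  obtain ⟨m, hm⟩ := core (G := SpecialLinearGroup (Fin n) K)
    (W := ∀ i, (Fin (a i) → Fin n) → K) (fun g w i => act (σ i) (w i) g.1)
    (fun g h w => funext fun i => act_mul _ _ _ _) (fun w => funext fun i => act_one _ _)
    (fun k => continuous_pi fun i => (cont_left _ _).comp (continuous_apply i)) t
    (fun m => {g | Kc m (SpecialLinearGroup.toGL g)})
    (fun m => ((SpecialLinearGroup.isClosedEmbedding_toGL.isCompact_preimage
      (TOP.isCompact_kc (m : ℝ))).image (continuous_pi fun i => (cont_right (hσ i) _).comp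
        continuous_subtype_val)).isClosed)
    (fun a b h g hg => Kc.mono hg (Nat.cast_le.2 h))
    (fun g => by
      obtain ⟨m, h1, h2⟩ := TOP.exists_kc (SpecialLinearGroup.toGL g)
      exact ⟨m, fun i j => (h1 i j).le, fun i j => (h2 i j).le⟩)
    (fun m k => by
      obtain ⟨l, h1, h2⟩ := TOP.exists_kc (SpecialLinearGroup.toGL k)
      refine ⟨n * (m * l), fun g hg => ?_⟩
      have h3 := Kc.mul hg (⟨fun i j => (h1 i j).le, fun i j => (h2 i j).le⟩ : Kc (l : ℝ) _)
      rw [← map_mul] at h3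
      exact h3.mono (by push_cast; exact le_rfl))
    hO (isCompact_closedBall 0 (max C 0))
  refine ⟨m, fun g hg => ?_⟩
  obtain ⟨k, hk, e⟩ := hm g (mem_closedBall_zero_iff.2 ((pi_norm_le_iff_of_nonneg
    (le_max_right _ _)).2 fun i => (pi_norm_le_iff_of_nonneg (le_max_right _ _)).2 fun J =>
      (hg i J).trans (le_max_left _ _)))
  refine ⟨g * k⁻¹, fun i => ?_, by rwa [show (g * k⁻¹)⁻¹ * g = k by group]⟩
  have e1 : act (σ i) (t i) k.1 = act (σ i) (t i) g.1 := congrFun e i
  have e2 : k.1 * (k⁻¹).1 = 1 := congrArg Subtype.val (mul_inv_cancel k)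
  change act (σ i) (t i) (g.1 * (k⁻¹).1) = t i
  rw [act_mul, ← e1, ← act_mul, e2, act_one]

end Pool.Agent.Lib.BT
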