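import Pool.Agent.Lib.BT.Blue2

/-! Non-degenerate forms have closed orbits under the special linear group. -/

noncomputable section

open Set Filter Topology

namespace Pool.Agent.Lib.BT

open Matrix

namespace FORM

variable {K : Type} [NontriviallyNormedField K]

lemma root {B : Type} [NormedRing B] [NormedAlgebra K B] [CompleteSpace B] (h2 : (2 : K) ≠ 0) :
    ∃ (r : B → B) (U : Set B), Tendsto r (𝓝 1) (𝓝 1) ∧ (∀ᶠ M in 𝓝 1, r M * r M = M) ∧
      U ∈ 𝓝 1 ∧ ∀ a ∈ U, ∀ b ∈ U, a * a = b * b → a = b := by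
  let e : B ≃L[K] B := ContinuousLinearEquiv.equivOfInverse ((2 : K) • ContinuousLinearMap.id K B)
    ((2 : K)⁻¹ • ContinuousLinearMap.id K B) (fun x => by simp [smul_smul, h2])
    fun x => by simp [smul_smul, h2]
  have hf : HasStrictFDerivAt (fun k : B => k * k) (e : B →L[K] B) 1 := by
    have h := (hasStrictFDerivAt_id (𝕜 := K) (1 : B)).mul' (hasStrictFDerivAt_id (𝕜 := K) (1 : B))
    exact h.congr_fderiv (ContinuousLinearMap.ext fun x => by simp [e, two_smul])
  refine ⟨hf.localInverse _ _ _, (hf.toOpenPartialHomeomorph _).source, ?_, ?_,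
    (hf.toOpenPartialHomeomorph _).open_source.mem_nhds hf.mem_toOpenPartialHomeomorph_source,
    fun a ha b hb h => (hf.toOpenPartialHomeomorph _).injOn ha hb h⟩
  · simpa using hf.localInverse_tendsto
  · simpa using hf.eventually_right_inverse

variable {n : ℕ}

attribute [local instance] Matrix.linftyOpNormedRing Matrix.linftyOpNormedAlgebra in
lemma root_mat [CompleteSpace K] (h2 : (2 : K) ≠ 0) :
    ∃ (r : Matrix (Fin n) (Fin n) K → Matrix (Fin n) (Fin n) K) (U : Set (Matrix (Fin n) (Fin n) K)),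
      Tendsto r (𝓝 1) (𝓝 1) ∧ (∀ᶠ M in 𝓝 1, r M * r M = M) ∧
      U ∈ 𝓝 1 ∧ ∀ a ∈ U, ∀ b ∈ U, a * a = b * b → a = b :=
  @root K _ (Matrix (Fin n) (Fin n) K) _ _
    (inferInstanceAs (CompleteSpace (Fin n → Fin n → K))) h2

/-- The conjugate transpose for the involution `s`. -/
def st (s : K →+* K) (A : Matrix (Fin n) (Fin n) K) : Matrix (Fin n) (Fin n) K := (A.map s)ᵀ

lemma st_mul (s : K →+* K) (A B : Matrix (Fin n) (Fin n) K) : st s (A * B) = st s B * st s A := by
  simp only [st, Matrix.map_mul, transpose_mul]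

lemma st_one (s : K →+* K) : st s (1 : Matrix (Fin n) (Fin n) K) = 1 := by
  simp [st]

lemma st_st {s : K →+* K} (h : ∀ x, s (s x) = x) (A : Matrix (Fin n) (Fin n) K) :
    st s (st s A) = A := by
  ext i j
  simp [st, h]

lemma det_st (s : K →+* K) (A : Matrix (Fin n) (Fin n) K) : (st s A).det = s A.det := by
  rw [st, det_transpose, RingHom.map_det, RingHom.mapMatrix_apply]

lemma cont_st {s : K →+* K} (h : ∀ x, ‖s x‖ = ‖x‖) :
    Continuous (st s : Matrix (Fin n) (Fin n) K → _) :=
  (continuous_id.matrix_map (AddMonoidHomClass.isometry_of_norm s h).continuous).matrix_transpose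

lemma near [CompleteSpace K] (h2 : (2 : K) ≠ 0) {s : K →+* K} (hs : ∀ x, ‖s x‖ = ‖x‖)
    {J : Matrix (Fin n) (Fin n) K} {ε : K} (hJ : st s J = ε • J) (hd : J.det ≠ 0) :
    ∀ᶠ J' in 𝓝 J, st s J' = ε • J' → J'.det = J.det →
      ∃ k : Matrix (Fin n) (Fin n) K, k.det = 1 ∧ st s k * J * k = J' := by
  obtain ⟨r, U, h1, h3, h4, h5⟩ := root_mat (n := n) h2
  have hl : J⁻¹ * J = 1 := nonsing_inv_mul _ (Ne.isUnit hd)
  have hr : J * J⁻¹ = 1 := mul_nonsing_inv _ (Ne.isUnit hd)
  have hM : Tendsto (fun J' => J⁻¹ * J') (𝓝 J) (𝓝 1) := by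
    rw [← hl]
    exact (continuous_const.mul continuous_id).tendsto J
  have ha : Tendsto (fun k => J⁻¹ * st s k * J) (𝓝 1) (𝓝 1) := by
    have h0 : Continuous fun k : Matrix (Fin n) (Fin n) K => J⁻¹ * st s k * J :=
      (continuous_const.mul (cont_st hs)).mul continuous_const
    exact h0.tendsto' 1 1 (by rw [st_one, mul_one, hl])
  have hne : ∀ᶠ k : Matrix (Fin n) (Fin n) K in 𝓝 1, k.det ≠ -1 :=
    (continuous_id.matrix_det.tendsto 1).eventually_ne fun h => h2 (by
      rw [id, det_one] at h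
      linear_combination h)
  filter_upwards [hM.eventually h3, (h1.comp hM).eventually h4,
    (ha.comp (h1.comp hM)).eventually h4, (h1.comp hM).eventually hne] with J' e1 e2 e3 e4 e5 e6
  simp only [Function.comp] at e2 e3 e4
  set k := r (J⁻¹ * J')
  have e7 : st s (J⁻¹ * J') * J = J' := by
    rw [st_mul, e5, smul_mul_assoc, smul_mul_assoc, mul_assoc, ← mul_smul_comm, ← mul_smul_comm,
      ← hJ, ← st_mul, hr, st_one, mul_one]
  have e8 : J⁻¹ * st s k * J = k := h5 _ e3 _ e2 (by
    calc J⁻¹ * st s k * J * (J⁻¹ * st s k * J) = J⁻¹ * (st s k * (J * J⁻¹) * st s k * J) := by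
          simp only [mul_assoc]
      _ = _ := by rw [hr, mul_one, ← st_mul, e1, e7])
  refine ⟨k, ?_, ?_⟩
  · have e9 : k.det * k.det = 1 := by rw [← det_mul, e1, det_mul, e6, ← det_mul, hl, det_one]
    exact (mul_self_eq_one_iff.1 e9).resolve_right e4
  · calc st s k * J * k = J * (J⁻¹ * st s k * J) * k := by
          rw [← mul_assoc, ← mul_assoc, hr, one_mul]
      _ = J' := by rw [e8, mul_assoc, e1, ← mul_assoc, hr, one_mul]

lemma closed [CompleteSpace K] (h2 : (2 : K) ≠ 0) {s : K →+* K} (hs : ∀ x, ‖s x‖ = ‖x‖)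
    (hi : ∀ x, s (s x) = x) {J : Matrix (Fin n) (Fin n) K} {ε : K} (hJ : st s J = ε • J)
    (hd : J.det ≠ 0) :
    IsClosed (range fun g : SpecialLinearGroup (Fin n) K => st s g.1 * J * g.1) := by
  have hO : ∀ A ∈ range fun g : SpecialLinearGroup (Fin n) K => st s g.1 * J * g.1,
      st s A = ε • A ∧ A.det = J.det := by
    rintro _ ⟨g, rfl⟩
    beta_reduce
    constructor
    · rw [st_mul, st_mul, st_st hi, hJ, smul_mul_assoc, mul_smul_comm, mul_assoc]
    · rw [det_mul, det_mul, det_st, g.2, map_one, one_mul, mul_one]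
  refine isClosed_of_closure_subset fun A hA => ?_
  have h1 : st s A = ε • A ∧ A.det = J.det := closure_minimal hO
    ((isClosed_eq (cont_st hs) (continuous_id.const_smul ε)).inter
      (isClosed_eq continuous_id.matrix_det continuous_const)) hA
  obtain ⟨_, h3, g, rfl⟩ := mem_closure_iff_nhds.1 hA _ (near h2 hs h1.1 (h1.2 ▸ hd))
  obtain ⟨k, hk, e⟩ := h3 (hO _ ⟨g, rfl⟩).1 ((hO _ ⟨g, rfl⟩).2.trans h1.2.symm)
  have hr : k * k⁻¹ = 1 := mul_nonsing_inv _ (hk ▸ isUnit_one)
  refine ⟨⟨g.1 * k⁻¹, by rw [det_mul, g.2, det_nonsing_inv, hk]; simp⟩, ?_⟩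
  calc st s (g.1 * k⁻¹) * J * (g.1 * k⁻¹) = st s k⁻¹ * (st s g.1 * J * g.1) * k⁻¹ := by
        simp only [st_mul, mul_assoc]
    _ = st s (k * k⁻¹) * A * (k * k⁻¹) := by
        rw [← show st s k * A * k = st s g.1 * J * g.1 from e]
        simp only [st_mul, mul_assoc]
    _ = A := by rw [hr, st_one, one_mul, mul_one]

lemma act_form (s : K →+* K) (J g : Matrix (Fin n) (Fin n) K) :
    act ![s, RingHom.id K] (fun I => J (I 0) (I 1)) g = fun I => (st s g * J * g) (I 0) (I 1) := by
  funext I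
  simp only [act, Matrix.mul_apply, Finset.sum_mul, st, transpose_apply, map_apply,
    Fin.prod_univ_two]
  rw [Finset.sum_comm, ← Fintype.sum_prod_type', ← (finTwoArrowEquiv (Fin n)).sum_comp]
  exact Finset.sum_congr rfl fun L _ => by simp; ring

end FORM

open FORM in
theorem stFORM : St_FORM := by
  intro K _ _ h2 n s hs hi J ε hJ hd
  constructor
  · have h := (closed h2 hs hi hJ hd).preimage
      (f := fun w : Unit → (Fin 2 → Fin n) → K => Matrix.of fun i j => w () ![i, j])
      (continuous_matrix fun i j => by simp only [of_apply]; fun_prop)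
    convert h using 1
    ext w
    simp only [act_form, mem_range, mem_preimage]
    refine exists_congr fun g => ⟨fun e => ?_, fun e => ?_⟩
    · ext i j
      rw [← e]
      rfl
    · funext u I
      rw [e, of_apply]
      congr 1
      exact (funext fun i => by fin_cases i <;> rfl)
  · intro g
    refine ⟨fun h => ?_, fun h _ => ?_⟩
    · have e := h ()
      rw [act_form] at e
      ext i j
      exact congrFun e ![i, j]
    · have e : st s g.1 * J * g.1 = J := h
      rw [act_form, e]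

end Pool.Agent.Lib.BT
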