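import Pool.Agent.Lib.BT.KN
import Pool.Agent.Lib.BT.BAIRE
import Pool.Agent.Lib.BT.FORM

/-! Geometric models for cocompact lattices of reductive groups over non-archimedean fields. -/

namespace Pool.Agent.Lib.BT

open Matrix

variable (K : Type) [NontriviallyNormedField K] [IsUltrametricDist K] [LocallyCompactSpace K]
  (n : ℕ)

/-- Cocompact lattices of the stabiliser of a family of forms with closed orbit. -/
theorem model_stab {ι : Type} [Finite ι] {a : ι → ℕ} (σ : ∀ i, Fin (a i) → K →+* K)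
    (t : ∀ i, (Fin (a i) → Fin n) → K) (hσ : ∀ i j x, ‖σ i j x‖ = ‖x‖)
    (hcl : IsClosed (Set.range fun (g : SpecialLinearGroup (Fin n) K) i => act (σ i) (t i) g.1))
    (Γ : Subgroup (stab σ t)) [DiscreteTopology Γ] [CompactSpace (stab σ t ⧸ Γ)] : Model Γ :=
  model_stab_of stBAIRE hσ hcl Γ

/-- Cocompact lattices of special orthogonal, symplectic and special unitary groups. -/
theorem model_form (h2 : (2 : K) ≠ 0) (s : K →+* K) (hs : ∀ x, ‖s x‖ = ‖x‖)
    (hs' : ∀ x, s (s x) = x) (J : Matrix (Fin n) (Fin n) K) (ε : K) (hJ : (J.map s)ᵀ = ε • J)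
    (hd : J.det ≠ 0) (G : Subgroup (SpecialLinearGroup (Fin n) K))
    (hG : ∀ g, g ∈ G ↔ (g.1.map s)ᵀ * J * g.1 = J) (Γ : Subgroup G) [DiscreteTopology Γ]
    [CompactSpace (G ⧸ Γ)] : Model Γ := by
  have : ProperSpace K := ProperSpace.of_locallyCompactSpace K
  obtain ⟨h3, h4⟩ := stFORM K h2 n s hs hs' J ε hJ hd
  obtain rfl : G = _ := Subgroup.ext fun g => (hG g).trans (h4 g).symm
  refine model_stab K n _ _ (fun _ j x => ?_) h3 Γ
  fin_cases j
  exacts [hs x, rfl]

end Pool.Agent.Lib.BT
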