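import Pool.Agent.Lib.BT.Red
import Pool.Agent.Lib.BT.Final
import Pool.Agent.Lib.BT.AdmDefs

/-! Geometric models for cocompact lattices in products of reductive groups over local fields. -/

noncomputable section

open Finset Filter Topology

namespace Pool.Agent.Lib.BT

open Pool.Agent.Lib.SD

/-- The group acts isometrically, properly and coboundedly on a proper metric space with
Bruhat-Tits midpoints, and has subexponential decay. -/
def Model0 (Γ : Type) [Group Γ] : Prop :=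
  ∃ (X : Type) (_ : MetricSpace X) (_ : MulAction Γ X) (_ : IsIsometricSMul Γ X)
    (_ : ProperSpace X) (o : X), HasCNMidpoints X ∧
    (∀ R : ℝ, {g : Γ | dist o (g • o) ≤ R}.Finite) ∧
    (∃ D : ℝ, ∀ x : X, ∃ g : Γ, dist x (g • o) ≤ D) ∧
    SubexpDecay (fun r => {g : Γ | dist o (g • o) ≤ r}) ∧
    ∀ S : Finset Γ, SubexpDecay (wordBall S)

/-- The same for a topological group. -/
def GModel (G : Type) [Group G] [TopologicalSpace G] : Prop :=
  IsTopologicalGroup G ∧ T2Space G ∧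
  ∃ (X : Type) (_ : MetricSpace X) (_ : MulAction G X) (_ : IsIsometricSMul G X)
    (_ : ProperSpace X) (o : X), HasCNMidpoints X ∧ Red X ∧
    (∀ R : ℝ, ∃ C : Set G, IsCompact C ∧ ∀ g : G, dist o (g • o) ≤ R → g ∈ C) ∧
    (∃ R : ℝ, ∀ᶠ g : G in 𝓝 1, dist o (g • o) ≤ R) ∧
    ∃ D : ℝ, ∀ x : X, ∃ g : G, dist x (g • o) ≤ D

variable {G H Γ : Type} [Group G] [TopologicalSpace G] [Group H] [TopologicalSpace H] [Group Γ]

theorem GModel.lattice (h : GModel G) (ρ : Γ →* G) [Finite ρ.ker] [DiscreteTopology ρ.range]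
    [CompactSpace (G ⧸ ρ.range)] : Model0 Γ := by
  obtain ⟨_, _, X, _, _, _, _, o, hC, hR, h1, ⟨R₀, h2⟩, D, h3⟩ := h
  let _ : MulAction Γ X := MulAction.compHom X ρ
  have hI : IsIsometricSMul Γ X := ⟨fun γ => isometry_smul X (ρ γ)⟩
  have hp : ∀ R : ℝ, {g : Γ | dist o (g • o) ≤ R}.Finite := fun R => by
    obtain ⟨C, c1, c2⟩ := h1 R
    have c3 := tendsto_cofinite_cocompact_iff.1 (ρ.range.tendsto_coe_cofinite_of_discrete
      (isDiscrete_iff_discreteTopology.2 ‹_›)) _ c1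
    refine (c3.preimage' (f := ρ.rangeRestrict) fun b _ => ?_).subset fun γ hγ => c2 _ hγ
    obtain ⟨_, a, rfl⟩ := b
    refine (Set.finite_range fun k : ρ.ker => a * k.val).subset fun c hc => ?_
    have : ρ c = ρ a := congrArg Subtype.val hc
    exact ⟨⟨a⁻¹ * c, by simp [MonoidHom.mem_ker, this]⟩, by simp⟩
  have hD : ∃ D : ℝ, ∀ x : X, ∃ g : Γ, dist x (g • o) ≤ D := by
    let U : ℕ → Set (G ⧸ ρ.range) := fun m =>
      QuotientGroup.mk '' interior {g : G | dist o (g • o) ≤ m}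
    obtain ⟨T, hT⟩ := isCompact_univ.elim_finite_subcover U
      (fun m => QuotientGroup.isOpenMap_coe _ isOpen_interior) fun x _ => by
        obtain ⟨g, rfl⟩ := QuotientGroup.mk_surjective x
        obtain ⟨m, hm⟩ := exists_nat_ge (dist o (g • o) + R₀)
        refine Set.mem_iUnion.2 ⟨m, g, mem_interior_iff_mem_nhds.2 ?_, rfl⟩
        have c1 : Tendsto (fun k : G => g⁻¹ * k) (𝓝 g) (𝓝 1) := by
          simpa using (continuous_const_mul g⁻¹).tendsto g
        filter_upwards [c1.eventually h2] with k hk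
        rw [CAT.d_eq] at hk
        linarith [dist_triangle o (g • o) (k • o)]
    refine ⟨D + (T.sup id : ℕ), fun x => ?_⟩
    obtain ⟨g, hg⟩ := h3 x
    obtain ⟨m, hm, w, hw, e⟩ := Set.mem_iUnion₂.1 (hT (Set.mem_univ (QuotientGroup.mk g⁻¹)))
    obtain ⟨γ, hγ⟩ := ρ.range.inv_mem (QuotientGroup.eq.1 e)
    refine ⟨γ, (dist_triangle _ (g • o) _).trans (add_le_add hg ?_)⟩
    have c1 : dist o (w • o) ≤ m := interior_subset (s := {g : G | dist o (g • o) ≤ m}) hw
    change dist (g • o) (ρ γ • o) ≤ _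
    rw [hγ, mul_inv_rev, inv_inv, inv_inv, mul_smul, dist_smul]
    exact c1.trans (Nat.cast_le.2 (le_sup (f := id) hm))
  have hs := hR.decay hC o hp hD
  exact ⟨X, _, _, hI, ‹_›, o, hC, hp, hD, hs, CAT.word o hs⟩

theorem GModel.prod (hG : GModel G) (hH : GModel H) : GModel (G × H) := by
  obtain ⟨_, _, X, _, _, _, _, o, a1, a2, a3, ⟨R, a4⟩, D, a5⟩ := hG
  obtain ⟨_, _, Y, _, _, _, _, o', b1, b2, b3, ⟨R', b4⟩, D', b5⟩ := hH
  let _ : MulAction (G × H) (WithLp 2 (X × Y)) :=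
    { smul := fun g a => WithLp.toLp 2 (g.1 • a.fst, g.2 • a.snd)
      one_smul := fun a => by
        change WithLp.toLp 2 ((1 : G) • a.fst, (1 : H) • a.snd) = a
        rw [one_smul, one_smul]
        rfl
      mul_smul := fun g h a => by
        change WithLp.toLp 2 ((g.1 * h.1) • a.fst, (g.2 * h.2) • a.snd) = _
        rw [mul_smul, mul_smul]
        rfl }
  refine ⟨inferInstance, inferInstance, WithLp 2 (X × Y), inferInstance, inferInstance,
    ⟨fun g => Isometry.of_dist_eq fun a b => ?_⟩, proper_prod, WithLp.toLp 2 (o, o'),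
    cn_prod a1 b1, a2.prod b2, fun r => ?_, ⟨R + R', ?_⟩, D + D', fun x => ?_⟩
  · refine (pow_left_inj₀ dist_nonneg dist_nonneg two_ne_zero).1 ?_
    rw [dist_sq, dist_sq, ← dist_smul g.1 a.fst, ← dist_smul g.2 a.snd]
    rfl
  · obtain ⟨C, c1, c2⟩ := a3 r
    obtain ⟨C', c3, c4⟩ := b3 r
    exact ⟨_, c1.prod c3, fun g hg => ⟨c2 _ ((WithLp.dist_fst_le _ _).trans hg),
      c4 _ ((WithLp.dist_snd_le _ _).trans hg)⟩⟩
  · filter_upwards [a4.prod_nhds b4] with g hg
    exact (dist_le_add _ _).trans (add_le_add hg.1 hg.2)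
  · obtain ⟨g, hg⟩ := a5 x.fst
    obtain ⟨h, hh⟩ := b5 x.snd
    exact ⟨(g, h), (dist_le_add _ _).trans (add_le_add hg hh)⟩

theorem GModel.comap (e : G →* H) (he : IsEmbedding e) (hs : Function.Surjective e)
    (hH : GModel H) : GModel G := by
  obtain ⟨_, _, X, _, _, _, _, o, a1, a2, a3, ⟨R, a4⟩, D, a5⟩ := hH
  let _ : MulAction G X := MulAction.compHom X e
  refine ⟨he.isInducing.topologicalGroup e, he.t2Space, X,
    inferInstance, inferInstance, ⟨fun g => isometry_smul X (e g)⟩, inferInstance, o, a1, a2,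
    fun r => ?_, ⟨R, ?_⟩, D, fun x => ?_⟩
  · obtain ⟨C, c1, c2⟩ := a3 r
    exact ⟨_, IsClosedEmbedding.isCompact_preimage ⟨he, hs.range_eq ▸ isClosed_univ⟩ c1,
      fun g hg => c2 _ hg⟩
  · have c1 : Tendsto e (𝓝 1) (𝓝 1) := by simpa using he.continuous.tendsto 1
    exact c1.eventually a4
  · obtain ⟨h, hh⟩ := a5 x
    obtain ⟨g, rfl⟩ := hs h
    exact ⟨g, hh⟩

lemma near_one {K : Type} [NontriviallyNormedField K] {n : ℕ} (φ : G →* GL (Fin n) K)
    (hφ : Continuous φ) : ∀ᶠ g in 𝓝 1, Kc 2 (φ g) := by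
  filter_upwards [((TOP.isOpen_lt (K := K) (n := n) 2).preimage hφ).mem_nhds (x := 1) (by
    rw [Set.mem_preimage, map_one]
    exact ⟨fun i j => (kc_one.1 i j).trans_lt one_lt_two,
      fun i j => (kc_one.2 i j).trans_lt one_lt_two⟩)] with g hg
  exact ⟨fun i j => (hg.1 i j).le, fun i j => (hg.2 i j).le⟩

section Real

open Matrix PD

variable {n : ℕ}

lemma pos_cn : HasCNMidpoints (Pos n) := fun a b => by
  obtain ⟨g, x, h1, h2, h3⟩ := frame a.pos b.pos
  refine ⟨⟨_, cg_pos h1 (ex_pos ((1 / 2 : ℝ) • x))⟩, fun p => ?_⟩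
  have := cn_geo h1 p.pos x (t := 1 / 2) (by norm_num) (by norm_num)
  rw [← h2, ← h3] at this
  simp only [dist_def]
  linarith

lemma pos_log {g : GL (Fin n) ℝ} {r : ℝ} (hr : 0 ≤ r) (h : Kc (Real.exp r) g) :
    dist (base n) (g • base n) ≤ n * (2 * n ^ 2 + 2) * (r + 1) := by
  obtain ⟨U, x, h1, h2⟩ := spec (g • base n).pos
  have h3 := tt_cg (orth_unit h1) (ex 0) (ex x)
  rw [tt_ex, ex_zero, Matrix.mul_one, h1, ← h2, smul_base, tt, inv_one, Matrix.one_mul,
    Matrix.mul_one, Matrix.mul_inv_rev, trace_mul_comm _ g.val⁻¹, ← transpose_nonsing_inv,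
    ← coe_units_inv] at h3
  have h4 := tr_le h.1
  have h5 := tr_le h.2
  have h6 : ∀ k, |x k| ≤ (2 * n ^ 2 + 2) * (r + 1) := fun k => by
    have a1 := single_le_sum (f := fun i => 2 * Real.cosh (x i - (0 : Fin n → ℝ) i) - 2)
      (fun i _ => by linarith [Real.one_le_cosh (x i - (0 : Fin n → ℝ) i)]) (mem_univ k)
    rw [Pi.zero_apply, sub_zero, ← Real.cosh_abs, Real.cosh_eq] at a1
    have a2 := Real.exp_pos (-|x k|)
    have a3 : 1 ≤ Real.exp r ^ 2 := one_le_pow₀ (Real.one_le_exp hr)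
    have a4 : Real.exp |x k| ≤ Real.exp (2 * n ^ 2 + 2) * Real.exp r ^ 2 := by
      nlinarith [Real.add_one_le_exp (2 * n ^ 2 + 2 : ℝ), (Nat.cast_nonneg n : (0 : ℝ) ≤ n)]
    rw [← Real.exp_nat_mul, ← Real.exp_add, Real.exp_le_exp] at a4
    push_cast at a4
    nlinarith [sq_nonneg (n : ℝ)]
  rw [dist_def, h2]
  change pd 1 _ ≤ _
  rw [pd_one_orth h1, mul_assoc]
  simpa [EuclideanSpace.norm_eq] using norm_le_of (x := WithLp.toLp 2 x) (by positivity) h6

lemma pos_red : Red (Pos n) := by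
  refine red_GL (fun g : GL (Fin n) ℝ => g • base n) (D := 0) (A := n * (2 * n ^ 2 + 2))
    (by positivity) (fun x => ?_) (fun g h r H => ?_) fun g h r hr H => ?_
  · obtain ⟨g, rfl⟩ := exists_smul x
    exact ⟨g, (dist_self _).le⟩
  · exact (kc_of_dist ((CAT.d_eq _ g h).trans_le H)).mono
      (Real.exp_le_exp.2 (half_le_self (dist_nonneg.trans H)))
  · exact (CAT.d_eq _ g h).symm.trans_le (pos_log hr H)

theorem gm_real {G : Subgroup (GL (Fin n) ℝ)} (hG : IsReductive G) : GModel G := by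
  have : Nonempty (SymSp G) := ⟨org G⟩
  refine ⟨inferInstance, inferInstance, SymSp G, inferInstance, inferInstance, inferInstance,
    properSpace hG.closed, org G, hasCN hG, pos_red.sub pos_cn (hasCN hG) isometry_subtype_coe,
    fun R => ⟨_, hG.closed.isClosedEmbedding_subtypeVal.isCompact_preimage
      (TOP.isCompact_kc (Real.exp (R / 2))), fun g hg => kc_of_dist hg⟩,
    ⟨2 * (n * |2|), ?_⟩, 0, fun x => ?_⟩
  · filter_upwards [near_one G.subtype continuous_subtype_val] with g hg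
    exact dist_of_kc hg
  · obtain ⟨g, rfl⟩ := exists_org x
    exact ⟨g, (dist_self _).le⟩

end Real

open Matrix.SpecialLinearGroup in
theorem gm_stab {K : Type} [NontriviallyNormedField K] [IsUltrametricDist K]
    [LocallyCompactSpace K] {n : ℕ} {ι : Type} [Finite ι] {a : ι → ℕ}
    {σ : ∀ i, Fin (a i) → K →+* K} {t : ∀ i, (Fin (a i) → Fin n) → K}
    (hσ : ∀ i j x, ‖σ i j x‖ = ‖x‖) (hcl : IsClosed (Set.range
      fun (g : Matrix.SpecialLinearGroup (Fin n) K) i => act (σ i) (t i) g.1)) :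
    GModel (stab σ t) := by
  have : ProperSpace K := ProperSpace.of_locallyCompactSpace K
  let _ := met K n stTB stKL
  have hA : Apt K n := apt_met stTB stKL
  obtain ⟨c₀, hc₀⟩ :=
    (Set.finite_range fun p : Σ i, Fin (a i) → Fin n => ‖t p.1 p.2‖).bddAbove
  have hc := abs_nonneg c₀
  obtain ⟨C, D, h3⟩ := sub_cob hσ hc hA (stBAIRE K n ι a σ t hσ hcl)
  have ho : pt 1 0 ∈ sub σ t |c₀| := (mem_sub hσ hc).2 ⟨by simp [vl], fun i J => by
    rw [Units.val_one, act_one]
    simpa using (hc₀ ⟨⟨i, J⟩, rfl⟩).trans (le_abs_self _)⟩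
  have hp := (stPROP K n hA).1
  let _ : MulAction (stab σ t) (sub σ t |c₀|) :=
    { smul := fun γ α => ⟨toGL γ.1 • α.1, sub_smul γ.2 α.2⟩
      one_smul := fun α => Subtype.ext (by
        change toGL (1 : Matrix.SpecialLinearGroup (Fin n) K) • α.1 = α.1
        rw [map_one, one_smul])
      mul_smul := fun γ δ α => Subtype.ext (by
        change toGL (γ.1 * δ.1) • α.1 = toGL γ.1 • toGL δ.1 • α.1
        rw [map_mul, mul_smul]) }
  have h4 : HasCNMidpoints (Bld K n) := fun α β => by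
    obtain ⟨g, x, y, rfl, rfl⟩ := hA.c α β
    exact ⟨_, bdist_cn stTB stKL g x y⟩
  have h5 : HasCNMidpoints (sub σ t |c₀|) := fun ⟨α, h⟩ ⟨β, h'⟩ => by
    obtain ⟨g, x, y, rfl, rfl⟩ := hA.c α β
    exact ⟨⟨_, sub_mid hσ hc g x y h h'⟩, fun p => bdist_cn stTB stKL g x y p.1⟩
  have h6 : Red (Bld K n) := by
    obtain ⟨b, b0, hb⟩ := PROP.exists_scale K
    refine red_GL (fun g => pt g 0) (D := n * b) (A := n) (by positivity) (fun α => ?_)
      (fun g h r => hA.kc) fun g h r hr H => (hA.le_of_kc hr H).trans (by gcongr; linarith)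
    obtain ⟨g₀, x₀, rfl⟩ := exists_pt α
    obtain ⟨g, x, -, e, -, hx⟩ := PROP.normalise hb g₀ x₀ x₀
    exact ⟨g, e ▸ hA.near g b0 hx⟩
  have h7 : ∀ g : stab σ t, dist (⟨_, ho⟩ : sub σ t |c₀|) (g • ⟨_, ho⟩) =
      dist (pt (1 : GL (Fin n) K) 0) (pt (toGL g.1) 0) := fun g => by
    change dist (pt (1 : GL (Fin n) K) 0) (toGL g.1 • pt 1 0) = _
    rw [smul_pt, mul_one]
  have h8 : IsClosed (stab σ t : Set (Matrix.SpecialLinearGroup (Fin n) K)) := by
    change IsClosed {g : Matrix.SpecialLinearGroup (Fin n) K | ∀ i, act (σ i) (t i) g.1 = t i}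
    rw [Set.ofPred_forall]
    exact isClosed_iInter fun i => isClosed_eq
      ((BAIRE.cont_right (hσ i) (t i)).comp continuous_subtype_val) continuous_const
  have : Nonempty (sub σ t |c₀|) := ⟨⟨_, ho⟩⟩
  refine ⟨inferInstance, inferInstance, sub σ t |c₀|, inferInstance, inferInstance,
    ⟨fun γ => Isometry.of_dist_eq fun a b => hA.smul _ a.1 b.1⟩,
    ProperSpace.of_isClosed (sub_closed hσ hc hA), ⟨_, ho⟩, h5,
    h6.sub h4 h5 isometry_subtype_coe, fun R => ⟨_, (isClosedEmbedding_toGL.comp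
      h8.isClosedEmbedding_subtypeVal).isCompact_preimage (TOP.isCompact_kc (Real.exp R)),
      fun g hg => (stENTR K n hA _ R).1 (h7 g ▸ hg)⟩, ⟨n * 1, ?_⟩, D + n * |C|, fun x => ?_⟩
  · filter_upwards [near_one (toGL.comp (stab σ t).subtype)
      (isEmbedding_toGL.continuous.comp continuous_subtype_val)] with g hg
    rw [h7]
    exact (stENTR K n hA _ 1).2 zero_le_one (hg.mono (by linarith [Real.add_one_le_exp 1]))
  · obtain ⟨h, a1, g, a2, a3⟩ := h3 x.1 x.2
    have a4 := hA.le_of_kc (abs_nonneg C) (a2.mono (by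
      linarith [le_abs_self C, Real.add_one_le_exp |C|]))
    refine ⟨⟨h, a1⟩, ?_⟩
    change dist x.1 (toGL h • pt 1 0) ≤ _
    rw [smul_pt, mul_one]
    exact (dist_triangle_right _ _ _).trans (add_le_add a3 a4)

open Matrix SpecialLinearGroup in
theorem Adm.gmodel (h : Adm G) : GModel G := by
  induction h with
  | sl K n =>
    refine (gm_stab (ι := Empty) (a := fun _ => 0) (σ := fun i => i.elim) (t := fun i => i.elim)
      (fun i => i.elim) (Set.toFinite _).isClosed).comap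
      ((MonoidHom.id _).codRestrict _ fun _ i => i.elim)
      (IsEmbedding.id.codRestrict _ _) fun g => ⟨g.1, rfl⟩
  | form K n h2 s hs hs' J ε hJ hd G hG =>
    have : ProperSpace K := ProperSpace.of_locallyCompactSpace K
    obtain ⟨h3, h4⟩ := stFORM K h2 n s hs hs' J ε hJ hd
    obtain rfl : G = _ := Subgroup.ext fun g => (hG g).trans (h4 g).symm
    refine gm_stab (fun _ j x => ?_) h3
    fin_cases j
    exacts [hs x, rfl]
  | stab K n ι a σ t hσ hcl => exact gm_stab hσ hcl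
  | slR n =>
    have hm : ∀ g : GL (Fin n) ℝ, g ∈ (toGL (n := Fin n) (R := ℝ)).range ↔ g.val.det = 1 :=
      fun g => ⟨by rintro ⟨s, rfl⟩; exact s.2, fun h => ⟨⟨g.val, h⟩, Units.ext rfl⟩⟩
    refine (gm_real (PD.isReductive_of_algebraic (G := toGL.range)
      ⟨{(Matrix.of fun i j => MvPolynomial.X (i, j)).det - 1}, fun g => ?_⟩ fun g hg => ?_)).comap
      toGL.rangeRestrict (isEmbedding_toGL.codRestrict _ _) toGL.rangeRestrict_surjective
    · rw [hm]
      simp only [Set.mem_singleton_iff, forall_eq, map_sub, map_one, sub_eq_zero, RingHom.map_det]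
      rw [show (MvPolynomial.eval fun l : Fin n × Fin n => g.val l.1 l.2).mapMatrix
        (Matrix.of fun i j => MvPolynomial.X (i, j)) = g.val from by ext; simp]
    · exact ⟨toGL ⟨g.valᵀ, by rw [det_transpose, (hm g).1 hg]⟩, ⟨_, rfl⟩, rfl⟩
  | alg n G hG hT => exact gm_real (PD.isReductive_of_algebraic hG hT)
  | real n G hG => exact gm_real hG
  | prod G H _ _ hG hH => exact hG.prod hH
  | iso G H e _ hH => exact hH.comap (e : G →* H) e.toHomeomorph.isEmbedding e.surjective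

/-- Cocompact lattices in finite products of reductive groups over local fields. -/
theorem model_adm (h : Adm G) (ρ : Γ →* G) [Finite ρ.ker] [DiscreteTopology ρ.range]
    [CompactSpace (G ⧸ ρ.range)] : Model0 Γ := h.gmodel.lattice ρ

end Pool.Agent.Lib.BT
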