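import Pool.Agent.Lib.BT.Defs
import Pool.Agent.Lib.SD.Blue

/-! The building of `GL n K`: basic lemmas and block statements. -/

noncomputable section

open Finset

namespace Pool.Agent.Lib.BT

open Pool.Agent.Lib.SD

section Basic

variable {K : Type} [NontriviallyNormedField K] {n : ℕ}

/-- The matrix `g` contracts the weighted norm `y` to the weighted norm `x`. -/
def Le (x : EuclideanSpace ℝ (Fin n)) (g : GL (Fin n) K) (y : EuclideanSpace ℝ (Fin n)) : Prop :=
  ∀ i j, ‖g.val i j‖ * Real.exp (x i) ≤ Real.exp (y j)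

/-- Unipotent triangular with respect to a ranking of the indices. -/
def Tri (T : GL (Fin n) K) : Prop :=
  (∀ i, T.val i i = 1) ∧ ∃ rk : Fin n → ℕ, ∀ l i, l ≠ i → T.val l i ≠ 0 → rk l < rk i

lemma tri_one : Tri (1 : GL (Fin n) K) :=
  ⟨fun i => by simp, fun _ => 0, fun l i h h' => (h' (by simp [h])).elim⟩

lemma le_nrm (g : GL (Fin n) K) (x : EuclideanSpace ℝ (Fin n)) (v : Fin n → K) (i : Fin n) :
    ‖(g⁻¹).val.mulVec v i‖ * Real.exp (x i) ≤ nrm g x v :=
  le_ciSup (f := fun i => ‖(g⁻¹).val.mulVec v i‖ * Real.exp (x i)) (Set.finite_range _).bddAbove i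

lemma nrm_nonneg (g : GL (Fin n) K) (x : EuclideanSpace ℝ (Fin n)) (v : Fin n → K) :
    0 ≤ nrm g x v := Real.iSup_nonneg fun _ => by positivity

lemma nrm_le {g : GL (Fin n) K} {x : EuclideanSpace ℝ (Fin n)} {v : Fin n → K} {t : ℝ}
    (ht : 0 ≤ t) (h : ∀ i, ‖(g⁻¹).val.mulVec v i‖ * Real.exp (x i) ≤ t) : nrm g x v ≤ t :=
  Real.iSup_le h ht

lemma nrm_col (g : GL (Fin n) K) (x : EuclideanSpace ℝ (Fin n)) (j : Fin n) :
    nrm g x (g.val.mulVec (Pi.single j 1)) = Real.exp (x j) := by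
  have h : ∀ i, (g⁻¹).val.mulVec (g.val.mulVec (Pi.single j 1)) i = (Pi.single j 1 : Fin n → K) i :=
    fun i => by rw [Matrix.mulVec_mulVec, ← Units.val_mul, inv_mul_cancel, Units.val_one,
      Matrix.one_mulVec]
  refine le_antisymm (nrm_le (Real.exp_pos _).le fun i => ?_) ?_
  · rw [h, Pi.single_apply]
    split_ifs with e
    · simp [e]
    · simpa using (Real.exp_pos _).le
  · have := le_nrm g x (g.val.mulVec (Pi.single j 1)) j
    rwa [h, Pi.single_eq_same, norm_one, one_mul] at this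

lemma le_of_nrm_le {g h : GL (Fin n) K} {x y : EuclideanSpace ℝ (Fin n)}
    (H : ∀ v, nrm g x v ≤ nrm h y v) : Le x (g⁻¹ * h) y := fun i j => by
  have h1 := (le_nrm g x (h.val.mulVec (Pi.single j 1)) i).trans (H _)
  rw [nrm_col, Matrix.mulVec_mulVec, ← Units.val_mul] at h1
  simpa using h1

variable [IsUltrametricDist K]

lemma nrm_le_of_le {g h : GL (Fin n) K} {x y : EuclideanSpace ℝ (Fin n)}
    (H : Le x (g⁻¹ * h) y) (v : Fin n → K) : nrm g x v ≤ nrm h y v := by
  refine nrm_le (nrm_nonneg _ _ _) fun i => ?_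
  have e : (g⁻¹).val.mulVec v = (g⁻¹ * h).val.mulVec ((h⁻¹).val.mulVec v) := by
    rw [Matrix.mulVec_mulVec, ← Units.val_mul, mul_inv_cancel_right]
  rw [e, ← le_div_iff₀ (Real.exp_pos _), Matrix.mulVec, dotProduct]
  refine IsUltrametricDist.norm_sum_le_of_forall_le_of_nonneg
    (div_nonneg (nrm_nonneg _ _ _) (Real.exp_pos _).le) fun j _ => ?_
  rw [le_div_iff₀ (Real.exp_pos _), norm_mul]
  refine le_trans ?_ (le_nrm h y v j)
  have := mul_le_mul_of_nonneg_left (H i j) (norm_nonneg ((h⁻¹).val.mulVec v j))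
  linarith

lemma pt_eq_iff {g h : GL (Fin n) K} {x y : EuclideanSpace ℝ (Fin n)} :
    pt g x = pt h y ↔ Le x (g⁻¹ * h) y ∧ Le y (h⁻¹ * g) x :=
  ⟨fun e => ⟨le_of_nrm_le fun v => (congrFun (congrArg Subtype.val e) v).le,
      le_of_nrm_le fun v => (congrFun (congrArg Subtype.val e) v).ge⟩,
    fun e => Subtype.ext (funext fun v => le_antisymm (nrm_le_of_le e.1 v) (nrm_le_of_le e.2 v))⟩

end Basic

/-- A common splitting basis that is triangular with respect to the first basis. -/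
def St_TB : Prop := ∀ (K : Type) [NontriviallyNormedField K] [IsUltrametricDist K] (n : ℕ)
  (x z : EuclideanSpace ℝ (Fin n)) (g : GL (Fin n) K), ∃ (T : GL (Fin n) K)
    (w : EuclideanSpace ℝ (Fin n)), Tri T ∧ pt 1 x = pt T x ∧ pt g z = pt T w

/-- Majorisation: the triangular retraction does not increase distances. -/
def St_KL : Prop := ∀ (K : Type) [NontriviallyNormedField K] [IsUltrametricDist K] (n : ℕ)
  (e h T : GL (Fin n) K) (y z y' z' : EuclideanSpace ℝ (Fin n)), Tri T → pt e y = pt h y' →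
    pt (e * T) z = pt h z' → ‖y - z‖ ≤ ‖y' - z'‖ ∧ ∑ i, (y i - z i) = ∑ i, (y' i - z' i)

/-- The metric restricts to the Euclidean metric on apartments, and any two points lie in an
apartment. -/
structure Apt (K : Type) [NontriviallyNormedField K] (n : ℕ) [MetricSpace (Bld K n)] : Prop where
  d : ∀ (g : GL (Fin n) K) x y, dist (pt g x) (pt g y) = ‖x - y‖
  c : ∀ α β : Bld K n, ∃ g x y, α = pt g x ∧ β = pt g y

/-- The building is proper and locally doubling. -/
def St_PROP : Prop := ∀ (K : Type) [NontriviallyNormedField K] [IsUltrametricDist K]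
  [ProperSpace K] (n : ℕ) [MetricSpace (Bld K n)], Apt K n → ProperSpace (Bld K n) ∧
    ∃ M : ℕ, ∀ (z : Bld K n) (ε : ℝ), 0 < ε → ε ≤ 1 → ∀ F : Finset (Bld K n),
      (∀ a ∈ F, dist a z ≤ 2 * ε) → (∀ a ∈ F, ∀ b ∈ F, a ≠ b → ε ≤ dist a b) → F.card ≤ M

/-- Displacement of the base point and matrix entries. -/
def St_ENTR : Prop := ∀ (K : Type) [NontriviallyNormedField K] [IsUltrametricDist K] (n : ℕ)
  [MetricSpace (Bld K n)], Apt K n → ∀ (g : GL (Fin n) K) (r : ℝ),
    (dist (pt (1 : GL (Fin n) K) 0) (pt g 0) ≤ r → Kc (Real.exp r) g) ∧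
    (0 ≤ r → Kc (Real.exp r) g → dist (pt (1 : GL (Fin n) K) 0) (pt g 0) ≤ n * r)

end Pool.Agent.Lib.BT
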