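import Pool.Agent.Lib.BT.TDefs
import Pool.Agent.Lib.SD.Blue

/-! Stabilisers of tensors: block statements. -/

namespace Pool.Agent.Lib.BT

open Pool.Agent.Lib.SD Matrix

/-- A closed orbit map is proper modulo the stabiliser (Baire category). -/
def St_BAIRE : Prop := ∀ (K : Type) [NontriviallyNormedField K] [ProperSpace K] (n : ℕ) (ι : Type)
  [Finite ι] (a : ι → ℕ) (σ : ∀ i, Fin (a i) → K →+* K) (t : ∀ i, (Fin (a i) → Fin n) → K),
    (∀ i j x, ‖σ i j x‖ = ‖x‖) →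
    IsClosed (Set.range fun (g : SpecialLinearGroup (Fin n) K) i => act (σ i) (t i) g.1) →
    ∀ C : ℝ, ∃ C' : ℝ, ∀ g : SpecialLinearGroup (Fin n) K,
      (∀ i J, ‖act (σ i) (t i) g.1 J‖ ≤ C) →
        ∃ h ∈ stab σ t, Kc C' (SpecialLinearGroup.toGL (h⁻¹ * g))

/-- Non-degenerate hermitian, skew-hermitian, symmetric and alternating forms have closed
orbits. -/
def St_FORM : Prop := ∀ (K : Type) [NontriviallyNormedField K] [CompleteSpace K], (2 : K) ≠ 0 →
  ∀ (n : ℕ) (s : K →+* K), (∀ x, ‖s x‖ = ‖x‖) → (∀ x, s (s x) = x) →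
    ∀ (J : Matrix (Fin n) (Fin n) K) (ε : K), (J.map s)ᵀ = ε • J → J.det ≠ 0 →
      IsClosed (Set.range fun (g : SpecialLinearGroup (Fin n) K) (_ : Unit) =>
        act ![s, RingHom.id K] (fun I => J (I 0) (I 1)) g.1) ∧
      ∀ g : SpecialLinearGroup (Fin n) K,
        g ∈ stab (a := fun _ : Unit => 2) (fun _ => ![s, RingHom.id K])
          (fun _ I => J (I 0) (I 1)) ↔ (g.1.map s)ᵀ * J * g.1 = J

end Pool.Agent.Lib.BT
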