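import Mathlib

/-! The space of split ultrametric norms on `K ^ n` (the extended Bruhat-Tits building of
`GL n K` in the model of Goldman and Iwahori). -/

noncomputable section

namespace Pool.Agent.Lib.BT

variable {K : Type} [NontriviallyNormedField K] {n : ℕ}

/-- The norm `max ‖a i‖ exp (x i)`, where `a i` are the coordinates in the basis formed by the
columns of `g`. -/
def nrm (g : GL (Fin n) K) (x : EuclideanSpace ℝ (Fin n)) (v : Fin n → K) : ℝ :=
  ⨆ i, ‖(g⁻¹).val.mulVec v i‖ * Real.exp (x i)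

variable (K n) in
/-- The set of norms that are split by some basis. -/
def Bld : Type := {α : (Fin n → K) → ℝ // ∃ g x, α = nrm g x}

/-- The point with coordinates `x` in the apartment of the basis `g`. -/
def pt (g : GL (Fin n) K) (x : EuclideanSpace ℝ (Fin n)) : Bld K n := ⟨nrm g x, g, x, rfl⟩

/-- The Euclidean distance in an apartment containing both points. -/
def bdist (α β : Bld K n) : ℝ := sInf {t | ∃ g x y, α = pt g x ∧ β = pt g y ∧ t = ‖x - y‖}

lemma nrm_mul (g h : GL (Fin n) K) (x : EuclideanSpace ℝ (Fin n)) (v : Fin n → K) :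
    nrm (g * h) x v = nrm h x ((g⁻¹).val.mulVec v) := by
  simp only [nrm, mul_inv_rev, Units.val_mul, Matrix.mulVec_mulVec]

instance : MulAction (GL (Fin n) K) (Bld K n) where
  smul g α := ⟨fun v => α.1 ((g⁻¹).val.mulVec v), by
    obtain ⟨h, x, e⟩ := α.2
    exact ⟨g * h, x, funext fun v => by rw [nrm_mul, e]⟩⟩
  one_smul α := Subtype.ext (funext fun v => by
    change α.1 (((1 : GL (Fin n) K)⁻¹).val.mulVec v) = α.1 v
    simp)
  mul_smul g h α := Subtype.ext (funext fun v => by
    change α.1 (((g * h)⁻¹).val.mulVec v) = α.1 ((h⁻¹).val.mulVec ((g⁻¹).val.mulVec v))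
    rw [mul_inv_rev, Units.val_mul, Matrix.mulVec_mulVec])

lemma smul_pt (g h : GL (Fin n) K) (x : EuclideanSpace ℝ (Fin n)) :
    g • pt h x = pt (g * h) x := Subtype.ext (funext fun v => (nrm_mul g h x v).symm)

lemma exists_pt (α : Bld K n) : ∃ g x, α = pt g x := by
  obtain ⟨g, x, e⟩ := α.2
  exact ⟨g, x, Subtype.ext e⟩

end Pool.Agent.Lib.BT
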