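import Pool.Agent.Lib.BT.Blue
import Pool.Agent.Lib.SD.TRI
import Pool.Agent.Lib.SD.MAJ

/-! Block KL: the triangular retraction of the building does not increase distances. -/

noncomputable section

open Finset

namespace Pool.Agent.Lib.BT

open Pool.Agent.Lib.SD

namespace KL

variable {K : Type} [NontriviallyNormedField K] {n : ℕ}

lemma det_tri {ι : Type} [Fintype ι] [DecidableEq ι] (M : Matrix ι ι K) (h1 : ∀ i, M i i = 1)
    (rk : ι → ℕ) (h : ∀ l i, l ≠ i → M l i ≠ 0 → rk l < rk i) : M.det = 1 := by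
  rw [Matrix.det_apply', sum_eq_single 1]
  · simp [h1]
  · intro σ _ hσ
    refine mul_eq_zero_of_right _ (by_contra fun h0 => ?_)
    have h2 : ∀ i, M (σ i) i ≠ 0 := fun i hi => h0 (prod_eq_zero (mem_univ i) hi)
    obtain ⟨i, hi⟩ : ∃ i, σ i ≠ i := by
      by_contra h3
      exact hσ (Equiv.ext fun i => by_contra fun h4 => h3 ⟨i, h4⟩)
    refine (sum_lt_sum (s := univ) (f := fun i => rk (σ i)) (g := rk) (fun j _ => ?_)
      ⟨i, mem_univ i, h _ _ hi (h2 i)⟩).ne (Equiv.sum_comp σ rk)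
    by_cases hj : σ j = j
    · rw [hj]
    · exact (h _ _ hj (h2 j)).le
  · simp

variable [IsUltrametricDist K]

/-- Hadamard's inequality with weights. -/
lemma det_le {ι : Type} [Fintype ι] [DecidableEq ι] (M : Matrix ι ι K) (s t : ι → ℝ)
    (h : ∀ i j, ‖M i j‖ * Real.exp (t i) ≤ Real.exp (s j)) :
    ‖M.det‖ * Real.exp (∑ i, t i) ≤ Real.exp (∑ i, s i) := by
  rw [Matrix.det_apply', ← le_div_iff₀ (Real.exp_pos _)]
  refine IsUltrametricDist.norm_sum_le_of_forall_le_of_nonneg (by positivity) fun σ _ => ?_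
  have h1 : ‖((Equiv.Perm.sign σ : ℤ) : K)‖ = 1 := by
    rcases Int.units_eq_one_or (Equiv.Perm.sign σ) with h | h <;> simp [h]
  rw [norm_mul, h1, one_mul, norm_prod, le_div_iff₀ (Real.exp_pos _), ← Equiv.sum_comp σ t,
    Real.exp_sum, Real.exp_sum, ← prod_mul_distrib]
  exact prod_le_prod (fun _ _ => by positivity) fun i _ => h _ _

lemma vol {g h : GL (Fin n) K} {x y : EuclideanSpace ℝ (Fin n)} (H : pt g x = pt h y) :
    ‖(g⁻¹ * h).val.det‖ * Real.exp (∑ i, x i) = Real.exp (∑ i, y i) := by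
  obtain ⟨H1, H2⟩ := pt_eq_iff.1 H
  have h0 : 0 < ‖(g⁻¹ * h).val.det‖ := norm_pos_iff.2 (Matrix.isUnits_det_units _).ne_zero
  have h2 := det_le _ _ _ H2
  have h3 : ‖(h⁻¹ * g).val.det‖ = ‖(g⁻¹ * h).val.det‖⁻¹ := by
    refine eq_inv_of_mul_eq_one_left ?_
    rw [← norm_mul, ← Matrix.det_mul, ← Units.val_mul, mul_assoc, mul_inv_cancel_left,
      inv_mul_cancel, Units.val_one, Matrix.det_one, norm_one]
  rw [h3, inv_mul_le_iff₀ h0] at h2
  exact le_antisymm (det_le _ _ _ H1) h2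

lemma minor {A B : GL (Fin n) K} {y z y' z' : EuclideanSpace ℝ (Fin n)} (hT : Tri (B * A))
    (hB : Le y B y') (hA : Le z' A z) (J : Finset (Fin n)) :
    ∃ I : Finset (Fin n), I.card = J.card ∧ ∑ j ∈ J, (y j - z j) ≤ ∑ i ∈ I, (y' i - z' i) := by
  obtain ⟨I, hI, hmax⟩ := exists_max_image (univ.powersetCard J.card)
    (fun I => ∑ i ∈ I, (y' i - z' i)) ⟨J, by simp [mem_powersetCard]⟩
  refine ⟨I, (mem_powersetCard.1 hI).2, ?_⟩
  obtain ⟨h1, rk, h2⟩ := hT
  have he := TRI.det_expand (ι := J) (κ := Fin n) (Matrix.of fun i l => B.val i l) (fun _ => 1)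
    (Matrix.of fun l j => A.val l j)
  have hm : ∀ i j, ∑ l, B.val i l * 1 * A.val l j = (B * A).val i j := fun i j => by
    simp only [mul_one, Units.val_mul, Matrix.mul_apply]
  simp only [Matrix.of_apply, hm] at he
  rw [det_tri (Matrix.of fun i j : J => (B * A).val i j) (fun i => h1 i) (fun i => rk i)
    fun l i hl h => h2 l i (fun e => hl (Subtype.ext e)) h] at he
  rw [← sub_nonneg, ← Real.one_le_exp_iff, ← norm_one (α := K), he]
  refine IsUltrametricDist.norm_sum_le_of_forall_le_of_nonneg (Real.exp_pos _).le fun φ _ => ?_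
  by_cases hφ : Function.Injective φ
  · have h3 := hmax (univ.image φ) (by
      rw [mem_powersetCard, card_image_of_injective _ hφ]
      simp)
    rw [sum_image fun a _ b _ h => hφ h, sum_sub_distrib] at h3
    have h4 := det_le ((Matrix.of fun (i : J) l => B.val i l).submatrix id φ)
      (fun j => y' (φ j)) (fun i => y i) fun i j => hB _ _
    have h5 : ‖∏ i : J, 1 * A.val (φ i) i‖ * Real.exp (∑ i, z' (φ i)) ≤
        Real.exp (∑ i : J, z i) := by
      rw [norm_prod, Real.exp_sum, Real.exp_sum, ← prod_mul_distrib]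
      exact prod_le_prod (fun _ _ => by positivity) fun i _ => by rw [one_mul]; exact hA _ _
    rw [← le_div_iff₀ (Real.exp_pos _), ← Real.exp_sub] at h4 h5
    rw [norm_mul]
    refine (mul_le_mul h5 h4 (norm_nonneg _) (Real.exp_pos _).le).trans ?_
    rw [← Real.exp_add, Real.exp_le_exp, ← sum_coe_sort J, sum_sub_distrib (s := univ)]
    linarith
  · obtain ⟨a, b, hab, hne⟩ := Function.not_injective_iff.1 hφ
    rw [Matrix.det_zero_of_column_eq hne fun k => by simp [hab], mul_zero, norm_zero]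
    exact (Real.exp_pos _).le

end KL

theorem stKL : St_KL := by
  intro K _ _ n e h T y z y' z' hT h1 h2
  have hm : e⁻¹ * h * (h⁻¹ * (e * T)) = T := by group
  have hs : ∑ i, (y i - z i) = ∑ i, (y' i - z' i) := by
    obtain ⟨h3, rk, h4⟩ := hT
    have h5 := congrArg₂ (· * ·) (KL.vol h1) (KL.vol h2.symm)
    simp only at h5
    rw [mul_mul_mul_comm, ← norm_mul, ← Matrix.det_mul, ← Units.val_mul, hm,
      KL.det_tri _ h3 rk h4, norm_one, one_mul, ← Real.exp_add, ← Real.exp_add,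
      Real.exp_eq_exp] at h5
    rw [sum_sub_distrib, sum_sub_distrib]
    linarith
  refine ⟨?_, hs⟩
  have := stMAJ n 0 le_rfl (y' - z') (y - z) (fun J => ?_) (by simpa using hs.ge)
  · simpa using this
  · simpa using KL.minor (hm.symm ▸ hT) (pt_eq_iff.1 h1).1 (pt_eq_iff.1 h2).2 J

end Pool.Agent.Lib.BT
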