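import Pool.Agent.Lib.BT.Blue
import Pool.Agent.Lib.SD.CAR

/-! Weighted complete pivoting. -/

noncomputable section

open Finset Matrix

namespace Pool.Agent.Lib.BT

open Pool.Agent.Lib.SD Pool.Agent.Lib.SD.CAR

namespace TB

variable {K : Type} [NontriviallyNormedField K] [IsUltrametricDist K] {n : ℕ}

lemma le_mul {x y z : EuclideanSpace ℝ (Fin n)} {g h : GL (Fin n) K} (hg : Le x g y)
    (hh : Le y h z) : Le x (g * h) z := fun i j => by
  rw [← le_div_iff₀ (Real.exp_pos _), Units.val_mul, Matrix.mul_apply]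
  refine IsUltrametricDist.norm_sum_le_of_forall_le_of_nonneg (by positivity) fun l _ => ?_
  rw [le_div_iff₀ (Real.exp_pos _), norm_mul]
  refine le_trans ?_ (hh l j)
  have := mul_le_mul_of_nonneg_left (hg i l) (norm_nonneg (h.val l j))
  linarith

omit [IsUltrametricDist K] in
lemma le_el (x : EuclideanSpace ℝ (Fin n)) (j : Fin n) (c : Fin n → K) (h0 : c j = 0)
    (h : c ⬝ᵥ Pi.single j 1 = 0) (hc : ∀ i, ‖c i‖ * Real.exp (x j) ≤ Real.exp (x i)) :
    Le x (el (Pi.single j 1) c h) x ∧ Le x (el (Pi.single j 1) c h)⁻¹ x := by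
  have key : ∀ (s : K), ‖s‖ = 1 → ∀ l i, ‖(1 : Matrix (Fin n) (Fin n) K) l i +
      s * ((Pi.single j 1 : Fin n → K) l * c i)‖ * Real.exp (x l) ≤ Real.exp (x i) := by
    intro s hs l i
    rw [Matrix.one_apply, Pi.single_apply]
    by_cases e : l = i
    · subst e
      by_cases e' : l = j
      · subst e'
        simp [h0]
      · simp [e']
    · by_cases e' : l = j
      · subst e'
        simpa [e, hs] using hc i
      · simpa [e, e'] using (Real.exp_pos _).le
  refine ⟨fun l i => ?_, fun l i => ?_⟩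
  · have := key (-1) (by simp) l i
    rwa [neg_one_mul, ← sub_eq_add_neg] at this
  · have := key 1 (by simp) l i
    rwa [one_mul] at this

/-- The invariant of the elimination; `U` is the set of columns not yet used. -/
structure Inv (x z : EuclideanSpace ℝ (Fin n)) (A : GL (Fin n) K) (U : Finset (Fin n))
    (T : GL (Fin n) K) (rk : Fin n → ℕ) (τ : Fin n → Fin n) : Prop where
  one : ∀ i, T.val i i = 1
  tri : ∀ l i, l ≠ i → T.val l i ≠ 0 → l ∉ U ∧ (i ∉ U → rk l < rk i)
  bd : ∀ l, l ∉ U → rk l + U.card < n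
  iso : Le x T x ∧ Le x T⁻¹ x
  zer : ∀ j, j ∉ U → ∀ i, i ≠ j → (A * T).val (τ j) i ≠ 0 → i ∉ U ∧ rk i < rk j
  piv : ∀ j, j ∉ U → (A * T).val (τ j) j ≠ 0
  dom : ∀ j, j ∉ U → ∀ r, ‖(A * T).val r j‖ * Real.exp (z r) ≤
    ‖(A * T).val (τ j) j‖ * Real.exp (z (τ j))

lemma step {x z : EuclideanSpace ℝ (Fin n)} {A : GL (Fin n) K} {U : Finset (Fin n)}
    {T : GL (Fin n) K} {rk : Fin n → ℕ} {τ : Fin n → Fin n} (H : Inv x z A U T rk τ)
    (hU : U.Nonempty) : ∃ j ∈ U, ∃ T' rk' τ', Inv x z A (U.erase j) T' rk' τ' := by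
  obtain ⟨j₀, hj₀⟩ := hU
  obtain ⟨⟨r, j⟩, h1, h2⟩ := exists_max_image (univ ×ˢ U)
    (fun p : Fin n × Fin n => ‖(A * T).val p.1 p.2‖ * Real.exp (z p.1) / Real.exp (x p.2))
    ⟨(j₀, j₀), mem_product.2 ⟨mem_univ _, hj₀⟩⟩
  have hj : j ∈ U := (mem_product.1 h1).2
  have h3 : ∀ s, ∀ i ∈ U, ‖(A * T).val s i‖ * Real.exp (z s) / Real.exp (x i) ≤
      ‖(A * T).val r j‖ * Real.exp (z r) / Real.exp (x j) :=
    fun s i hi => h2 (s, i) (mem_product.2 ⟨mem_univ _, hi⟩)
  have h0 : (A * T).val r j ≠ 0 := fun e => by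
    have h4 : ∀ s, (A * T).val s j = 0 := fun s => by
      have h5 := h3 s j hj
      rw [e, norm_zero, zero_mul, zero_div, div_nonpos_iff] at h5
      rcases h5 with h5 | h5
      · exact absurd h5.2 (not_le.2 (Real.exp_pos _))
      · exact norm_le_zero_iff.1 (nonpos_of_mul_nonpos_left h5.1 (Real.exp_pos _))
    have h5 := congrFun (congrFun (A * T).inv_val j) j
    rw [Matrix.mul_apply, Matrix.one_apply_eq, sum_eq_zero fun s _ => by rw [h4, mul_zero]] at h5
    exact zero_ne_one h5
  have hp : 0 < ‖(A * T).val r j‖ := norm_pos_iff.2 h0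
  let c : Fin n → K := fun i => if i ∈ U.erase j then (A * T).val r i / (A * T).val r j else 0
  have c0 : ∀ i, i ∉ U.erase j → c i = 0 := fun i hi => if_neg hi
  have cj : c j = 0 := c0 j (notMem_erase _ _)
  have hd : c ⬝ᵥ Pi.single j 1 = 0 := by simp [cj]
  have hc : ∀ i, ‖c i‖ * Real.exp (x j) ≤ Real.exp (x i) := fun i => by
    by_cases hi : i ∈ U.erase j
    · have h5 := h3 r i (mem_of_mem_erase hi)
      rw [div_le_div_iff₀ (Real.exp_pos _) (Real.exp_pos _)] at h5
      simp only [c, if_pos hi]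
      rw [norm_div, div_mul_eq_mul_div, div_le_iff₀ hp]
      refine le_of_mul_le_mul_right ?_ (Real.exp_pos (z r))
      linarith
    · rw [c0 i hi, norm_zero, zero_mul]
      exact (Real.exp_pos _).le
  have hE := le_el x j c cj hd hc
  have hcard : (U.erase j).card + 1 = U.card := card_erase_add_one hj
  have hn : U.card ≤ n := by simpa using card_le_univ U
  have hm : ∀ i, i ∉ U.erase j → i ≠ j → i ∉ U := fun i h1 h2 h3 => h1 (mem_erase.2 ⟨h2, h3⟩)
  have hr : ∀ i, i ∉ U → Function.update rk j (n - U.card) i = rk i := fun i hi =>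
    Function.update_of_ne (fun e : i = j => hi (e ▸ hj)) _ _
  have hτ : ∀ i, i ∉ U → Function.update τ j r i = τ i := fun i hi =>
    Function.update_of_ne (fun e : i = j => hi (e ▸ hj)) _ _
  have hlt : ∀ i, i ∉ U → rk i < n - U.card := fun i hi => by
    have := H.bd i hi
    omega
  refine ⟨j, hj, T * el (Pi.single j 1) c hd, Function.update rk j (n - U.card),
    Function.update τ j r, fun i => ?_, fun l i hli h => ?_, fun l hl => ?_,
    ⟨le_mul H.iso.1 hE.1, ?_⟩, fun j' hj' i hi h => ?_, fun j' hj' => ?_, fun j' hj' s => ?_⟩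
  · rw [mul_el, H.one]
    by_cases hi : i ∈ U.erase j
    · have : T.val i j = 0 := by
        by_contra h
        exact (H.tri i j (ne_of_mem_erase hi) h).1 (mem_of_mem_erase hi)
      rw [this, zero_mul, sub_zero]
    · rw [c0 i hi, mul_zero, sub_zero]
  · rw [mul_el] at h
    by_cases hi : i ∈ U.erase j
    · refine ⟨fun hl => h ?_, fun h' => absurd hi h'⟩
      have h5 : T.val l i = 0 := by
        by_contra h'
        exact (H.tri l i hli h').1 (mem_of_mem_erase hl)
      have h6 : T.val l j = 0 := by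
        by_contra h'
        exact (H.tri l j (ne_of_mem_erase hl) h').1 (mem_of_mem_erase hl)
      rw [h5, h6, zero_mul, sub_zero]
    · rw [c0 i hi, mul_zero, sub_zero] at h
      obtain ⟨h5, h6⟩ := H.tri l i hli h
      refine ⟨fun hl => h5 (mem_of_mem_erase hl), fun _ => ?_⟩
      rw [hr l h5]
      by_cases e : i = j
      · rw [e, Function.update_self]
        exact hlt l h5
      · rw [hr i (hm i hi e)]
        exact h6 (hm i hi e)
  · by_cases e : l = j
    · rw [e, Function.update_self]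
      omega
    · have := H.bd l (hm l hl e)
      rw [hr l (hm l hl e)]
      omega
  · rw [_root_.mul_inv_rev]
    exact le_mul hE.2 H.iso.2
  · rw [← mul_assoc, mul_el] at h
    by_cases e : j' = j
    · subst e
      rw [Function.update_self] at h
      have h5 : i ∉ U.erase j' := fun hi' => h (by
        simp only [c, if_pos hi']
        rw [mul_div_cancel₀ _ h0, sub_self])
      rw [Function.update_self, hr i (hm i h5 hi)]
      exact ⟨h5, hlt i (hm i h5 hi)⟩
    · have h5 := hm j' hj' e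
      have h6 : (A * T).val (τ j') j = 0 := by
        by_contra h'
        exact (H.zer j' h5 j (Ne.symm e) h').1 hj
      rw [hτ j' h5, h6, zero_mul, sub_zero] at h
      obtain ⟨h7, h8⟩ := H.zer j' h5 i hi h
      rw [hr i h7, hr j' h5]
      exact ⟨fun h' => h7 (mem_of_mem_erase h'), h8⟩
  · rw [← mul_assoc, mul_el, c0 j' hj', mul_zero, sub_zero]
    by_cases e : j' = j
    · rw [e, Function.update_self]
      exact h0
    · rw [hτ j' (hm j' hj' e)]
      exact H.piv j' (hm j' hj' e)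
  · rw [← mul_assoc, mul_el, mul_el, c0 j' hj', mul_zero, mul_zero, sub_zero, sub_zero]
    by_cases e : j' = j
    · rw [e, Function.update_self]
      exact (div_le_div_iff_of_pos_right (Real.exp_pos _)).1 (h3 s j hj)
    · rw [hτ j' (hm j' hj' e)]
      exact H.dom j' (hm j' hj' e) s

lemma fin {x z : EuclideanSpace ℝ (Fin n)} {A : GL (Fin n) K} (m : ℕ) : ∀ (U : Finset (Fin n))
    (T : GL (Fin n) K) (rk : Fin n → ℕ) (τ : Fin n → Fin n), U.card = m → Inv x z A U T rk τ →
      ∃ T rk τ, Inv x z A ∅ T rk τ := by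
  induction m with
  | zero =>
    intro U T rk τ h H
    rw [card_eq_zero.1 h] at H
    exact ⟨T, rk, τ, H⟩
  | succ m ih =>
    intro U T rk τ h H
    obtain ⟨j, hj, T', rk', τ', H'⟩ := step H (card_pos.1 (by omega))
    exact ih _ T' rk' τ' (by rw [card_erase_of_mem hj, h]; rfl) H'

omit [IsUltrametricDist K] in
lemma le_one (x : EuclideanSpace ℝ (Fin n)) : Le x (1 : GL (Fin n) K) x := fun i j => by
  rw [Units.val_one, Matrix.one_apply]
  split_ifs with e
  · simp [e]
  · simpa using (Real.exp_pos _).le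

end TB

open TB in
theorem stTB : St_TB := by
  intro K _ _ n x z g
  obtain ⟨T, rk, τ, H⟩ := fin (x := x) (z := z) (A := g⁻¹) _ univ 1 (fun _ => 0) id rfl
    ⟨fun i => by simp, fun l i h h' => (h' (by simp [h])).elim, fun l h => absurd (mem_univ l) h,
      ⟨le_one x, by rw [inv_one]; exact le_one x⟩, fun l h => absurd (mem_univ l) h,
      fun l h => absurd (mem_univ l) h, fun l h => absurd (mem_univ l) h⟩
  let w : EuclideanSpace ℝ (Fin n) :=
    WithLp.toLp 2 fun j => Real.log ‖(g⁻¹ * T).val (τ j) j‖ + z (τ j)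
  have hw : ∀ j, Real.exp (w j) = ‖(g⁻¹ * T).val (τ j) j‖ * Real.exp (z (τ j)) := fun j => by
    change Real.exp (_ + _) = _
    rw [Real.exp_add, Real.exp_log (norm_pos_iff.2 (H.piv j (notMem_empty j)))]
  have h1 : Le z (g⁻¹ * T) w := fun r j => by
    rw [hw]
    exact H.dom j (notMem_empty j) r
  refine ⟨T, w, ⟨H.one, rk, fun l i h h' => (H.tri l i h h').2 (notMem_empty i)⟩,
    pt_eq_iff.2 ⟨by simpa using H.iso.1, by simpa using H.iso.2⟩,
    Subtype.ext (funext fun v => le_antisymm (nrm_le_of_le h1 v) ?_)⟩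
  refine nrm_le (nrm_nonneg _ _ _) fun j => ?_
  set u := (T⁻¹).val.mulVec v with hu
  have e : (g⁻¹).val.mulVec v = (g⁻¹ * T).val.mulVec u := by
    rw [hu, Matrix.mulVec_mulVec, ← Units.val_mul, mul_inv_cancel_right]
  induction hk : rk j using Nat.strong_induction_on generalizing j with
  | _ k ih =>
  have h2 : (g⁻¹ * T).val (τ j) j * u j =
      (g⁻¹).val.mulVec v (τ j) + ∑ i ∈ univ.erase j, -((g⁻¹ * T).val (τ j) i * u i) := by
    rw [e, Matrix.mulVec, dotProduct, ← add_sum_erase _ _ (mem_univ j), sum_neg_distrib]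
    ring
  rw [hw, ← mul_assoc, mul_comm ‖u j‖, ← norm_mul, h2, ← le_div_iff₀ (Real.exp_pos _)]
  refine (IsUltrametricDist.norm_add_le_max _ _).trans (max_le ?_ ?_)
  · rw [le_div_iff₀ (Real.exp_pos _)]
    exact le_nrm g z v _
  · refine IsUltrametricDist.norm_sum_le_of_forall_le_of_nonneg
      (div_nonneg (nrm_nonneg _ _ _) (Real.exp_pos _).le) fun i hi => ?_
    rw [le_div_iff₀ (Real.exp_pos _), norm_neg, norm_mul]
    by_cases h0 : (g⁻¹ * T).val (τ j) i = 0
    · rw [h0, norm_zero, zero_mul, zero_mul]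
      exact nrm_nonneg _ _ _
    · have h3 := ih (rk i) (hk ▸ (H.zer j (notMem_empty j) i (ne_of_mem_erase hi) h0).2) i rfl
      refine le_trans ?_ h3
      have := mul_le_mul_of_nonneg_left (h1 (τ j) i) (norm_nonneg (u i))
      linarith

end Pool.Agent.Lib.BT
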