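import Pool.Agent.Lib.BT.Model
import Pool.Agent.Lib.BT.Blue2
import Pool.Agent.Lib.BT.TB
import Pool.Agent.Lib.BT.KL

/-! Sublevel sets of the norm of a tensor are closed and convex; the stabiliser acts coboundedly
when the orbit of the tensor is closed. -/

noncomputable section

open Finset

namespace Pool.Agent.Lib.BT

open Pool.Agent.Lib.SD Matrix.SpecialLinearGroup

variable {K : Type} [NontriviallyNormedField K] {n : ℕ}

/-- The logarithm of the covolume. -/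
def vl (g : GL (Fin n) K) (x : EuclideanSpace ℝ (Fin n)) : ℝ := ∑ i, x i - Real.log ‖g.val.det‖

/-- The form is bounded by `c` for the norm `pt g x`. -/
def Bd {m : ℕ} (σ : Fin m → K →+* K) (t : (Fin m → Fin n) → K) (c : ℝ) (g : GL (Fin n) K)
    (x : EuclideanSpace ℝ (Fin n)) : Prop :=
  ∀ J, ‖act σ t g.val J‖ ≤ c * Real.exp (∑ j, x (J j))

lemma det_ne (g : GL (Fin n) K) : ‖g.val.det‖ ≠ 0 :=
  norm_ne_zero_iff.2 (Matrix.isUnits_det_units _).ne_zero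

lemma abs_sum_le {m : ℕ} {x : Fin m → ℝ} {c : ℝ} (h : ∀ i, |x i| ≤ c) : |∑ i, x i| ≤ m * c :=
  (abs_sum_le_sum_abs _ _).trans ((sum_le_card_nsmul _ _ c fun i _ => h i).trans (by simp))

lemma fixdet (g : GL (Fin n) K) {D : ℝ} (h : |Real.log ‖g.val.det‖| ≤ D) :
    ∃ (e : Fin n → K) (he : ∀ i, e i ≠ 0), (∀ i, |Real.log ‖e i‖| ≤ D) ∧
      (g * dg e he).val.det = 1 := by
  rcases n with _ | n
  · exact ⟨fun _ => 1, fun _ => one_ne_zero, fun i => i.elim0, Matrix.det_isEmpty⟩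
  have h0 : g.val.det ≠ 0 := norm_ne_zero_iff.1 (det_ne g)
  refine ⟨Function.update (fun _ => (1 : K)) 0 (g.val.det)⁻¹, fun i => ?_, fun i => ?_, ?_⟩
  · rw [Function.update_apply]
    split_ifs
    exacts [inv_ne_zero h0, one_ne_zero]
  · rw [Function.update_apply]
    split_ifs
    · rwa [norm_inv, Real.log_inv, abs_neg]
    · rw [norm_one, Real.log_one, abs_zero]
      exact (abs_nonneg _).trans h
  · change (g.val * Matrix.diagonal _).det = 1
    rw [Matrix.det_mul, Matrix.det_diagonal, prod_update_of_mem (mem_univ _), prod_const_one,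
      mul_one, mul_inv_cancel₀ h0]

lemma Bd.mono {m : ℕ} {σ : Fin m → K →+* K} {t : (Fin m → Fin n) → K} {c δ : ℝ} (hc : 0 ≤ c)
    {g : GL (Fin n) K} {x y : EuclideanSpace ℝ (Fin n)} (h : Bd σ t c g x)
    (hx : ∀ i, |x i - y i| ≤ δ) : Bd σ t (c * Real.exp (m * δ)) g y := fun J => by
  refine (h J).trans ?_
  rw [mul_assoc, ← Real.exp_add]
  have := (abs_le.1 (abs_sum_le fun j => hx (J j))).2
  rw [sum_sub_distrib] at this
  gcongr
  linarith

lemma Bd.mid {m : ℕ} {σ : Fin m → K →+* K} {t : (Fin m → Fin n) → K} {c : ℝ} (hc : 0 ≤ c)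
    {g : GL (Fin n) K} {x y : EuclideanSpace ℝ (Fin n)} (h1 : Bd σ t c g x) (h2 : Bd σ t c g y) :
    Bd σ t c g ((1 / 2 : ℝ) • (x + y)) := fun J => by
  have e : ∑ j, ((1 / 2 : ℝ) • (x + y)) (J j) = (∑ j, x (J j) + ∑ j, y (J j)) / 2 := by
    simp only [PiLp.smul_apply, PiLp.add_apply, smul_eq_mul, ← mul_sum, sum_add_distrib]
    ring
  rw [e]
  rcases le_total (∑ j, x (J j)) (∑ j, y (J j)) with h | h
  · refine (h1 J).trans ?_
    gcongr
    linarith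
  · refine (h2 J).trans ?_
    gcongr
    linarith

variable [IsUltrametricDist K]

lemma vl_eq {g h : GL (Fin n) K} {x y : EuclideanSpace ℝ (Fin n)} (H : pt g x = pt h y) :
    vl g x = vl h y := by
  have h1 := congrArg Real.log (KL.vol H)
  have h2 : Real.log ‖h.val.det‖ = Real.log ‖g.val.det‖ + Real.log ‖(g⁻¹ * h).val.det‖ := by
    rw [← Real.log_mul (det_ne _) (det_ne _), ← norm_mul, ← Matrix.det_mul, ← Units.val_mul,
      mul_inv_cancel_left]
  rw [Real.log_mul (det_ne _) (Real.exp_pos _).ne', Real.log_exp, Real.log_exp] at h1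
  unfold vl
  linarith

lemma Bd.tr {m : ℕ} {σ : Fin m → K →+* K} (hσ : ∀ j x, ‖σ j x‖ = ‖x‖)
    {t : (Fin m → Fin n) → K} {c : ℝ} (hc : 0 ≤ c) {g h : GL (Fin n) K}
    {x y : EuclideanSpace ℝ (Fin n)} (H : pt g x = pt h y) (hb : Bd σ t c g x) : Bd σ t c h y := by
  intro J
  have e : h.val = g.val * (g⁻¹ * h).val := by rw [← Units.val_mul, mul_inv_cancel_left]
  rw [e, act_mul, act]
  refine IsUltrametricDist.norm_sum_le_of_forall_le_of_nonneg (by positivity) fun I _ => ?_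
  rw [norm_mul, norm_prod]
  refine (mul_le_mul_of_nonneg_right (hb I) (by positivity)).trans ?_
  rw [mul_assoc, Real.exp_sum, Real.exp_sum, ← prod_mul_distrib]
  refine mul_le_mul_of_nonneg_left (prod_le_prod (fun _ _ => by positivity) fun j _ => ?_) hc
  rw [hσ, mul_comm]
  exact (pt_eq_iff.1 H).1 _ _

variable {ι : Type} {a : ι → ℕ} (σ : ∀ i, Fin (a i) → K →+* K)
  (t : ∀ i, (Fin (a i) → Fin n) → K)

/-- The norms of covolume one for which all forms are bounded by `c`. -/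
def sub (c : ℝ) : Set (Bld K n) :=
  {α | ∃ g x, α = pt g x ∧ vl g x = 0 ∧ ∀ i, Bd (σ i) (t i) c g x}

variable {σ t} (hσ : ∀ i j x, ‖σ i j x‖ = ‖x‖) {c : ℝ} (hc : 0 ≤ c)
include hσ hc

lemma mem_sub {g : GL (Fin n) K} {x : EuclideanSpace ℝ (Fin n)} :
    pt g x ∈ sub σ t c ↔ vl g x = 0 ∧ ∀ i, Bd (σ i) (t i) c g x :=
  ⟨fun ⟨_, _, e, h1, h2⟩ => ⟨(vl_eq e).trans h1, fun i => (h2 i).tr (hσ i) hc e.symm⟩,
    fun h => ⟨g, x, rfl, h⟩⟩

lemma sub_mid (g : GL (Fin n) K) (x y : EuclideanSpace ℝ (Fin n)) (h1 : pt g x ∈ sub σ t c)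
    (h2 : pt g y ∈ sub σ t c) : pt g ((1 / 2 : ℝ) • (x + y)) ∈ sub σ t c := by
  rw [mem_sub hσ hc] at h1 h2 ⊢
  refine ⟨?_, fun i => (h1.2 i).mid hc (h2.2 i)⟩
  have h3 := h1.1
  have h4 := h2.1
  simp only [vl, PiLp.smul_apply, PiLp.add_apply, smul_eq_mul, ← mul_sum, sum_add_distrib] at *
  linarith

omit hσ hc [IsUltrametricDist K] in
lemma sub_smul {h : Matrix.SpecialLinearGroup (Fin n) K} (hh : h ∈ stab σ t) {α : Bld K n}
    (H : α ∈ sub σ t c) : toGL h • α ∈ sub σ t c := by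
  obtain ⟨g, x, rfl, h1, h2⟩ := H
  refine ⟨_, _, smul_pt _ _ _, ?_, fun i J => ?_⟩
  · rwa [vl, Units.val_mul, Matrix.det_mul, coe_GL_coe_matrix, h.2, one_mul]
  · rw [Units.val_mul, coe_GL_coe_matrix, act_mul, hh i]
    exact h2 i J

variable [MetricSpace (Bld K n)] (hA : Apt K n)
include hA

lemma sub_closed : IsClosed (sub σ t c) := by
  refine isClosed_of_closure_subset fun β hβ => ?_
  obtain ⟨h, y, rfl⟩ := exists_pt β
  have key : ∀ δ : ℝ, 0 < δ → |vl h y| ≤ n * δ ∧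
      ∀ i, Bd (σ i) (t i) (c * Real.exp (a i * δ)) h y := fun δ hδ => by
    obtain ⟨α, h1, h2⟩ := Metric.mem_closure_iff.1 hβ δ hδ
    obtain ⟨g, y', x', e1, rfl⟩ := hA.c (pt h y) α
    rw [e1, hA.d, norm_sub_rev] at h2
    rw [mem_sub hσ hc] at h1
    have h3 : ∀ i, |x' i - y' i| ≤ δ := fun i => (PiLp.norm_apply_le (x' - y') i).trans h2.le
    refine ⟨?_, fun i => ((h1.2 i).mono hc h3).tr (hσ i) (by positivity) e1.symm⟩
    have h4 := abs_sum_le h3
    have h5 := h1.1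
    rw [vl_eq e1, vl, abs_sub_comm]
    rw [sum_sub_distrib] at h4
    unfold vl at h5
    rwa [show Real.log ‖g.val.det‖ = ∑ i, x' i by linarith]
  have lim : ∀ (f : ℝ → ℝ) (u : ℝ), Continuous f → (∀ δ, 0 < δ → u ≤ f δ) → u ≤ f 0 :=
    fun f u hf h => ge_of_tendsto (hf.continuousWithinAt (s := Set.Ioi 0) (x := 0))
      (eventually_mem_nhdsWithin.mono h)
  refine ⟨h, y, rfl, ?_, fun i J => ?_⟩
  · simpa using lim (fun δ => n * δ) _ (by fun_prop) fun δ hδ => (key δ hδ).1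
  · simpa using lim (fun δ => c * Real.exp (a i * δ) * Real.exp (∑ j, y (J j))) _ (by fun_prop)
      fun δ hδ => (key δ hδ).2 i J

lemma sub_cob [Finite ι] (hP : ∀ C : ℝ, ∃ C' : ℝ, ∀ g : Matrix.SpecialLinearGroup (Fin n) K,
      (∀ i J, ‖act (σ i) (t i) g.1 J‖ ≤ C) → ∃ h ∈ stab σ t, Kc C' (toGL (h⁻¹ * g))) :
    ∃ (C D : ℝ), ∀ α ∈ sub σ t c, ∃ h ∈ stab σ t, ∃ g, Kc C ((toGL h)⁻¹ * g) ∧
      dist α (pt g 0) ≤ D := by
  obtain ⟨b, b0, hb⟩ := PROP.exists_scale K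
  obtain ⟨A, hA'⟩ := (Set.finite_range a).bddAbove
  obtain ⟨C, hC⟩ := hP (c * Real.exp (A * (b + n * b)))
  refine ⟨C, n * (b + n * b), fun α hα => ?_⟩
  obtain ⟨g₀, x₀, rfl⟩ := exists_pt α
  obtain ⟨g, x, -, e, -, hx⟩ := PROP.normalise hb g₀ x₀ x₀
  rw [e] at hα ⊢
  have h1 := ((mem_sub hσ hc).1 hα).1
  obtain ⟨d, hd, h2, h3⟩ := fixdet g (D := n * b) (by
    unfold vl at h1
    rw [show Real.log ‖g.val.det‖ = ∑ i, x i by linarith]
    exact abs_sum_le hx)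
  rw [PROP.shift g d hd] at hα ⊢
  have h4 : ∀ i, |(x + dv (dg d hd)) i| ≤ b + n * b := fun i => by
    simp only [PiLp.add_apply, dv_apply, dg_apply]
    exact (abs_add_le _ _).trans (add_le_add (hx i) (h2 i))
  obtain ⟨h, h5, h6⟩ := hC ⟨_, h3⟩ fun i J => by
    refine (((mem_sub hσ hc).1 hα).2 i J).trans (mul_le_mul_of_nonneg_left
      (Real.exp_le_exp.2 ((le_abs_self _).trans ((abs_sum_le fun j => h4 (J j)).trans ?_))) hc)
    have : (a i : ℝ) ≤ A := Nat.cast_le.2 (hA' ⟨i, rfl⟩)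
    gcongr
  refine ⟨h, h5, _, ?_, hA.near _ (by positivity) h4⟩
  have h7 : ∀ k : Matrix.SpecialLinearGroup (Fin n) K, toGL (h⁻¹ * k) = (toGL h)⁻¹ * toGL k :=
    fun k => by rw [map_mul, map_inv]
  have h8 : toGL (⟨_, h3⟩ : Matrix.SpecialLinearGroup (Fin n) K) = g * dg d hd := Units.ext rfl
  exact (congrArg (Kc C) ((h7 _).trans (congrArg _ h8))).mp h6

omit hσ hc hA [MetricSpace (Bld K n)] in
/-- Discrete cobounded subgroups of a stabiliser whose orbit map is proper. -/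
theorem model_core [LocallyCompactSpace K] [Finite ι] (hσ : ∀ i j x, ‖σ i j x‖ = ‖x‖)
    (hP : ∀ C : ℝ, ∃ C' : ℝ, ∀ g : Matrix.SpecialLinearGroup (Fin n) K,
      (∀ i J, ‖act (σ i) (t i) g.1 J‖ ≤ C) → ∃ h ∈ stab σ t, Kc C' (toGL (h⁻¹ * g)))
    {Γ : Type} [Group Γ] (ρ : Γ →* Matrix.SpecialLinearGroup (Fin n) K) (h0 : ∀ γ, ρ γ ∈ stab σ t)
    (h1 : Fn (toGL.comp ρ)) (h2 : ∃ C : ℝ, ∀ h ∈ stab σ t, ∃ γ, Kc C ((toGL (ρ γ))⁻¹ * toGL h)) :
    Model Γ := by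
  have : ProperSpace K := ProperSpace.of_locallyCompactSpace K
  let _ := met K n stTB stKL
  have hA : Apt K n := apt_met stTB stKL
  obtain ⟨c₀, hc₀⟩ :=
    (Set.finite_range fun p : Σ i, Fin (a i) → Fin n => ‖t p.1 p.2‖).bddAbove
  have hc := abs_nonneg c₀
  obtain ⟨C₁, h2⟩ := h2
  obtain ⟨C, D, h3⟩ := sub_cob hσ hc hA hP
  refine hA.model _ (bdist_cn stTB stKL) h1 (sub_closed hσ hc hA) (o := pt 1 0)
    ((mem_sub hσ hc).2 ⟨by simp [vl], fun i J => ?_⟩) (sub_mid hσ hc)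
    (fun γ α hα => sub_smul (h0 γ) hα) ⟨D + n * |n * (C₁ * C)|, fun α hα => ?_⟩
  · rw [Units.val_one, act_one]
    simpa using (hc₀ ⟨⟨i, J⟩, rfl⟩).trans (le_abs_self _)
  · obtain ⟨h, h4, g, h5, h6⟩ := h3 α hα
    obtain ⟨γ, h7⟩ := h2 h h4
    have h8 := h7.mul h5
    rw [mul_assoc, mul_inv_cancel_left] at h8
    have h9 := hA.le_of_kc (abs_nonneg (n * (C₁ * C))) (h8.mono (by
      linarith [le_abs_self (n * (C₁ * C)), Real.add_one_le_exp |n * (C₁ * C)|]))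
    exact ⟨γ, (dist_triangle_right _ _ _).trans (add_le_add h6 h9)⟩

omit hσ hc hA [MetricSpace (Bld K n)] in
/-- Cocompact lattices of the stabiliser of a closed orbit. -/
theorem model_stab_of (hB : St_BAIRE) [LocallyCompactSpace K] [Finite ι]
    (hσ : ∀ i j x, ‖σ i j x‖ = ‖x‖) (hcl : IsClosed (Set.range
      fun (g : Matrix.SpecialLinearGroup (Fin n) K) i => act (σ i) (t i) g.1))
    (Γ : Subgroup (stab σ t)) [DiscreteTopology Γ] [CompactSpace (stab σ t ⧸ Γ)] : Model Γ := by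
  have : ProperSpace K := ProperSpace.of_locallyCompactSpace K
  obtain ⟨h1, C, h2⟩ := stTOP.lat K n _ (toGL.comp (stab σ t).subtype)
    (isEmbedding_toGL.comp Topology.IsEmbedding.subtypeVal) Γ ‹_› ‹_›
  exact model_core hσ (hB K n ι a σ t hσ hcl) ((stab σ t).subtype.comp Γ.subtype)
    (fun γ => γ.1.2) h1 ⟨C, fun h hh => h2 ⟨h, hh⟩⟩

end Pool.Agent.Lib.BT

open Pool.Agent.Lib.SD Matrix.SpecialLinearGroup in
/-- Cocompact lattices of the special linear group. -/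
theorem Pool.Agent.Lib.BT.model_SL (K : Type) [NontriviallyNormedField K] [IsUltrametricDist K]
    [LocallyCompactSpace K] (n : ℕ) (Γ : Subgroup (Matrix.SpecialLinearGroup (Fin n) K))
    [DiscreteTopology Γ] [CompactSpace (Matrix.SpecialLinearGroup (Fin n) K ⧸ Γ)] : Model Γ := by
  obtain ⟨h1, C, h2⟩ := stTOP.lat K n _ toGL isEmbedding_toGL Γ ‹_› ‹_›
  exact model_core (ι := Empty) (a := fun _ => 0) (σ := fun i => i.elim) (t := fun i => i.elim)
    (fun i => i.elim) (fun _ => ⟨1, fun g _ => ⟨g, fun i => i.elim, by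
      rw [inv_mul_cancel, map_one]; exact kc_one⟩⟩) Γ.subtype (fun _ i => i.elim) h1
    ⟨C, fun h _ => h2 h⟩
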