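import Pool.Agent.Lib.BT.Blue
import Pool.Agent.Lib.SD.CATDefs

/-! The metric on the building, from the two basic statements. -/

noncomputable section

open Finset

namespace Pool.Agent.Lib.BT

open Pool.Agent.Lib.SD

variable {K : Type} [NontriviallyNormedField K] [IsUltrametricDist K] {n : ℕ}

lemma tb' (hT : St_TB) (e : GL (Fin n) K) (x : EuclideanSpace ℝ (Fin n)) (p : Bld K n) :
    ∃ (T : GL (Fin n) K) (w : EuclideanSpace ℝ (Fin n)), Tri T ∧ pt e x = pt (e * T) x ∧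
      p = pt (e * T) w := by
  obtain ⟨g, z, rfl⟩ := exists_pt p
  obtain ⟨T, w, h1, h2, h3⟩ := hT K n x z (e⁻¹ * g)
  refine ⟨T, w, h1, ?_, ?_⟩
  · rw [← smul_pt e T, ← h2, smul_pt, mul_one]
  · rw [← smul_pt e T, ← h3, smul_pt, mul_inv_cancel_left]

lemma common (hT : St_TB) (α β : Bld K n) : ∃ g x y, α = pt g x ∧ β = pt g y := by
  obtain ⟨e, x, rfl⟩ := exists_pt α
  obtain ⟨T, w, -, h2, h3⟩ := tb' hT e x β
  exact ⟨_, _, _, h2, h3⟩

lemma bdist_pt (hK : St_KL) (g : GL (Fin n) K) (x y : EuclideanSpace ℝ (Fin n)) :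
    bdist (pt g x) (pt g y) = ‖x - y‖ := by
  refine IsLeast.csInf_eq ⟨⟨g, x, y, rfl, rfl, rfl⟩, ?_⟩
  rintro _ ⟨h, x', y', h1, h2, rfl⟩
  exact (hK K n g h 1 x y x' y' tri_one h1 (by rwa [mul_one])).1

lemma key (hT : St_TB) (hK : St_KL) (e : GL (Fin n) K) (x : EuclideanSpace ℝ (Fin n))
    (p : Bld K n) : ∃ w : EuclideanSpace ℝ (Fin n), bdist (pt e x) p = ‖x - w‖ ∧
      ∀ y, ‖y - w‖ ≤ bdist (pt e y) p := by
  obtain ⟨T, w, h1, h2, h3⟩ := tb' hT e x p
  refine ⟨w, by rw [h2, h3, bdist_pt hK], fun y => ?_⟩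
  obtain ⟨h, y', z', h4, h5⟩ := common hT (pt e y) p
  rw [h4, h5, bdist_pt hK]
  exact (hK K n e h T y w y' z' h1 h4 (h3.symm.trans h5)).1

lemma bdist_self (hK : St_KL) (α : Bld K n) : bdist α α = 0 := by
  obtain ⟨g, x, rfl⟩ := exists_pt α
  rw [bdist_pt hK, sub_self, norm_zero]

lemma bdist_comm (hT : St_TB) (hK : St_KL) (α β : Bld K n) : bdist α β = bdist β α := by
  obtain ⟨g, x, y, rfl, rfl⟩ := common hT α β
  rw [bdist_pt hK, bdist_pt hK, norm_sub_rev]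

lemma bdist_triangle (hT : St_TB) (hK : St_KL) (α β γ : Bld K n) :
    bdist α γ ≤ bdist α β + bdist β γ := by
  obtain ⟨g, x, y, rfl, rfl⟩ := common hT α β
  obtain ⟨w, h1, h2⟩ := key hT hK g x γ
  rw [h1, bdist_pt hK]
  have := h2 y
  have := norm_sub_le_norm_sub_add_norm_sub x y w
  linarith

lemma eq_of_bdist (hT : St_TB) (hK : St_KL) {α β : Bld K n} (h : bdist α β = 0) : α = β := by
  obtain ⟨g, x, y, rfl, rfl⟩ := common hT α β
  rw [bdist_pt hK, norm_eq_zero, sub_eq_zero] at h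
  rw [h]

lemma bdist_smul (hT : St_TB) (hK : St_KL) (g : GL (Fin n) K) (α β : Bld K n) :
    bdist (g • α) (g • β) = bdist α β := by
  obtain ⟨h, x, y, rfl, rfl⟩ := common hT α β
  rw [smul_pt, smul_pt, bdist_pt hK, bdist_pt hK]

lemma bdist_cn (hT : St_TB) (hK : St_KL) (g : GL (Fin n) K) (x y : EuclideanSpace ℝ (Fin n))
    (p : Bld K n) : bdist p (pt g ((1 / 2 : ℝ) • (x + y))) ^ 2 ≤
      (bdist p (pt g x) ^ 2 + bdist p (pt g y) ^ 2) / 2 - bdist (pt g x) (pt g y) ^ 2 / 4 := by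
  obtain ⟨w, h1, h2⟩ := key hT hK g ((1 / 2 : ℝ) • (x + y)) p
  rw [bdist_comm hT hK p, bdist_comm hT hK p, bdist_comm hT hK p, h1, bdist_pt hK]
  have h3 := pow_le_pow_left₀ (norm_nonneg _) (h2 x) 2
  have h4 := pow_le_pow_left₀ (norm_nonneg _) (h2 y) 2
  have h5 := parallelogram_law_with_norm ℝ (x - w) (y - w)
  have h6 : x - w + (y - w) = (2 : ℝ) • ((1 / 2 : ℝ) • (x + y) - w) := by module
  rw [h6, sub_sub_sub_cancel_right, norm_smul, Real.norm_two] at h5
  nlinarith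

theorem stENTR : St_ENTR := by
  intro K _ _ n _ hA g r
  obtain ⟨h, x, y, h1, h2⟩ := hA.c (pt (1 : GL (Fin n) K) 0) (pt g 0)
  have hd : dist (pt (1 : GL (Fin n) K) 0) (pt g 0) = ‖x - y‖ := by rw [h1, h2, hA.d]
  have e1 : ∀ v, nrm (1 : GL (Fin n) K) 0 v = nrm h x v := congrFun (congrArg Subtype.val h1)
  have e2 : ∀ v, nrm g 0 v = nrm h y v := congrFun (congrArg Subtype.val h2)
  have cmp : ∀ (a b : EuclideanSpace ℝ (Fin n)) (t : ℝ), (∀ i, a i ≤ b i + t) → ∀ v,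
      nrm h a v ≤ Real.exp t * nrm h b v := fun a b t hab v =>
    nrm_le (mul_nonneg (Real.exp_pos _).le (nrm_nonneg _ _ _)) fun i => by
      refine le_trans ?_ (mul_le_mul_of_nonneg_left (le_nrm h b v i) (Real.exp_pos t).le)
      rw [mul_left_comm, ← Real.exp_add, add_comm]
      exact mul_le_mul_of_nonneg_left (Real.exp_le_exp.2 (hab i)) (norm_nonneg _)
  have ent : ∀ (a b : GL (Fin n) K) (t : ℝ), (∀ v, nrm a 0 v ≤ t * nrm b 0 v) →
      ∀ i j, ‖(a⁻¹ * b).val i j‖ ≤ t := fun a b t H i j => by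
    have h3 := (le_nrm a 0 (b.val.mulVec (Pi.single j 1)) i).trans (H _)
    rw [nrm_col, Matrix.mulVec_mulVec, ← Units.val_mul] at h3
    simpa using h3
  have ent' : ∀ (a b : GL (Fin n) K), (∀ i j, ‖(a⁻¹ * b).val i j‖ ≤ Real.exp r) →
      ∀ v, nrm a 0 v ≤ Real.exp r * nrm b 0 v := fun a b H v => by
    have h3 : nrm a 0 v ≤ nrm b (WithLp.toLp 2 fun _ => r) v :=
      nrm_le_of_le (fun i j => by simpa using H i j) v
    refine h3.trans (nrm_le (mul_nonneg (Real.exp_pos _).le (nrm_nonneg _ _ _)) fun i => ?_)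
    have := le_nrm b 0 v i
    simp only [PiLp.zero_apply, Real.exp_zero, mul_one] at this
    rw [mul_comm]
    exact mul_le_mul_of_nonneg_left this (Real.exp_pos _).le
  refine ⟨fun hr => ?_, fun hr hk => ?_⟩
  · have h3 : ∀ i, |x i - y i| ≤ r := fun i =>
      (PiLp.norm_apply_le (x - y) i).trans (hd ▸ hr)
    refine ⟨fun i j => ?_, fun i j => ?_⟩
    · have := ent 1 g (Real.exp r) (fun v => by
        rw [e1, e2]; exact cmp x y r (fun i => by linarith [(abs_le.1 (h3 i)).2]) v) i j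
      simpa using this
    · have := ent g 1 (Real.exp r) (fun v => by
        rw [e1, e2]; exact cmp y x r (fun i => by linarith [(abs_le.1 (h3 i)).1]) v) i j
      simpa using this
  · have h3 : ∀ i, |x i - y i| ≤ r := fun i => by
      have a1 := ent' 1 g (by simpa using hk.1) (h.val.mulVec (Pi.single i 1))
      have a2 := ent' g 1 (by simpa using hk.2) (h.val.mulVec (Pi.single i 1))
      rw [e1, e2, nrm_col, nrm_col, ← Real.exp_add, Real.exp_le_exp] at a1 a2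
      rw [abs_le]
      constructor <;> linarith
    rw [hd]
    refine (abs_le_of_sq_le_sq' ?_ (by positivity)).2
    rw [EuclideanSpace.norm_sq_eq]
    calc ∑ i, ‖(x - y) i‖ ^ 2 ≤ ∑ _i : Fin n, r ^ 2 := sum_le_sum fun i _ =>
          pow_le_pow_left₀ (norm_nonneg _) (h3 i) 2
      _ = n * r ^ 2 := by simp
      _ ≤ (n * r) ^ 2 := by
          have : (n : ℝ) ≤ n ^ 2 := by exact_mod_cast Nat.le_self_pow two_ne_zero n
          nlinarith [sq_nonneg r]

end Pool.Agent.Lib.BT
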