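import Pool.Agent.Lib.BT.Blue
import Pool.Agent.Lib.SD.TOP

/-! The building is proper and locally doubling. -/

noncomputable section

open Finset

namespace Pool.Agent.Lib.BT

open Pool.Agent.Lib.SD

namespace PROP

variable {K : Type} [NontriviallyNormedField K] {n : ℕ}

lemma dg_off (d : Fin n → K) (hd : ∀ i, d i ≠ 0) {i j : Fin n} (h : i ≠ j) :
    (dg d hd).val i j = 0 := Matrix.diagonal_apply_ne d h

lemma exists_scale (K : Type) [NontriviallyNormedField K] :
    ∃ c : ℝ, 0 ≤ c ∧ ∀ t : ℝ, ∃ d : K, d ≠ 0 ∧ |t + Real.log ‖d‖| ≤ c := by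
  obtain ⟨p, hp⟩ := NormedField.exists_one_lt_norm K
  have hc : 0 < Real.log ‖p‖ := Real.log_pos hp
  have h0 : p ≠ 0 := norm_pos_iff.1 (zero_lt_one.trans hp)
  refine ⟨_, hc.le, fun t => ⟨p ^ (-⌊t / Real.log ‖p‖⌋), zpow_ne_zero _ h0, ?_⟩⟩
  rw [norm_zpow, Real.log_zpow, abs_le]
  have h1 := (le_div_iff₀ hc).1 (Int.floor_le (t / Real.log ‖p‖))
  have h2 := (div_lt_iff₀ hc).1 (Int.lt_floor_add_one (t / Real.log ‖p‖))
  push_cast
  constructor <;> nlinarith

/-- Matrices that are close to the identity together with their inverse. -/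
def Nr (δ : ℝ) : Set (GL (Fin n) K) :=
  {w | (∀ i j, ‖(w.val - 1) i j‖ < δ) ∧ ∀ i j, ‖((w⁻¹).val - 1) i j‖ < δ}

lemma isOpen_nr (δ : ℝ) : IsOpen (Nr δ : Set (GL (Fin n) K)) := by
  simp only [Nr, Set.ofPred_and, Set.ofPred_forall]
  refine IsOpen.inter ?_ ?_ <;>
    refine isOpen_iInter_of_finite fun i => isOpen_iInter_of_finite fun j =>
      _root_.isOpen_lt ?_ continuous_const
  · exact ((Units.continuous_val.sub continuous_const).matrix_elem i j).norm
  · exact ((Units.continuous_coe_inv.sub continuous_const).matrix_elem i j).norm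

lemma one_mem_nr {δ : ℝ} (h : 0 < δ) : (1 : GL (Fin n) K) ∈ Nr δ :=
  ⟨fun i j => by simpa using h, fun i j => by simpa using h⟩

lemma net [ProperSpace K] (C : ℝ) {δ : ℝ} (h : 0 < δ) : ∃ S : Finset (GL (Fin n) K),
    ∀ f : GL (Fin n) K, Kc C f → ∃ g ∈ S, g⁻¹ * f ∈ Nr δ := by
  obtain ⟨S, hS⟩ := (TOP.isCompact_kc (K := K) (n := n) C).elim_finite_subcover
    (fun g : GL (Fin n) K => (fun f => g⁻¹ * f) ⁻¹' Nr δ)
    (fun g => (isOpen_nr δ).preimage (continuous_const.mul continuous_id))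
    fun f _ => Set.mem_iUnion.2 ⟨f, by simpa using one_mem_nr h⟩
  refine ⟨S, fun f hf => ?_⟩
  obtain ⟨g, hg, h1⟩ := Set.mem_iUnion₂.1 (hS hf)
  exact ⟨g, hg, h1⟩

variable [IsUltrametricDist K]

lemma shift (g : GL (Fin n) K) (d : Fin n → K) (hd : ∀ i, d i ≠ 0)
    (x : EuclideanSpace ℝ (Fin n)) : pt g x = pt (g * dg d hd) (x + dv (dg d hd)) := by
  have hp : ∀ i, 0 < ‖d i‖ := fun i => norm_pos_iff.2 (hd i)
  refine pt_eq_iff.2 ⟨fun i j => ?_, fun i j => ?_⟩
  · rw [inv_mul_cancel_left]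
    by_cases h : i = j
    · subst h
      simp only [dg_apply, PiLp.add_apply, dv_apply, Real.exp_add, Real.exp_log (hp i)]
      exact (mul_comm _ _).le
    · rw [dg_off d hd h, norm_zero, zero_mul]
      exact (Real.exp_pos _).le
  · rw [mul_inv_rev, inv_mul_cancel_right, dg_inv]
    by_cases h : i = j
    · subst h
      simp only [dg_apply, PiLp.add_apply, dv_apply, Real.exp_add, Real.exp_log (hp i), norm_inv]
      have := (hp i).ne'
      exact le_of_eq (by field_simp)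
    · rw [dg_off _ _ h, norm_zero, zero_mul]
      exact (Real.exp_pos _).le

lemma normalise {c : ℝ} (hc : ∀ t : ℝ, ∃ d : K, d ≠ 0 ∧ |t + Real.log ‖d‖| ≤ c)
    (g : GL (Fin n) K) (x y : EuclideanSpace ℝ (Fin n)) :
    ∃ (f : GL (Fin n) K) (x' y' : EuclideanSpace ℝ (Fin n)), pt g x = pt f x' ∧ pt g y = pt f y' ∧
      ∀ i, |x' i| ≤ c := by
  choose d hd h using fun i => hc (x i)
  exact ⟨_, _, _, shift g d hd x, shift g d hd y, fun i => by
    simpa only [PiLp.add_apply, dv_apply, dg_apply] using h i⟩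

lemma le_of_near {B : ℝ} {m : Matrix (Fin n) (Fin n) K}
    (h : ∀ i j, ‖(m - 1) i j‖ < Real.exp (-(2 * B))) {u : EuclideanSpace ℝ (Fin n)}
    (hu : ∀ i, |u i| ≤ B) (i j : Fin n) : ‖m i j‖ * Real.exp (u i) ≤ Real.exp (u j) := by
  have h1 := h i j
  have h2 := abs_le.1 (hu i)
  have h3 := abs_le.1 (hu j)
  rw [Matrix.sub_apply, Matrix.one_apply] at h1
  split_ifs at h1 with e
  · subst e
    have h4 : ‖m i i‖ ≤ 1 := by
      have h5 := IsUltrametricDist.norm_add_le_max (m i i - 1) 1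
      rw [sub_add_cancel, norm_one] at h5
      exact h5.trans (max_le (h1.le.trans (Real.exp_le_one_iff.2 (by linarith))) le_rfl)
    exact mul_le_of_le_one_left (Real.exp_pos _).le h4
  · rw [sub_zero] at h1
    calc _ ≤ Real.exp (-(2 * B)) * Real.exp (u i) :=
          mul_le_mul_of_nonneg_right h1.le (Real.exp_pos _).le
      _ ≤ _ := by rw [← Real.exp_add]; exact Real.exp_le_exp.2 (by linarith)

lemma pt_near {B : ℝ} (g w : GL (Fin n) K) (hw : w ∈ Nr (Real.exp (-(2 * B))))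
    {u : EuclideanSpace ℝ (Fin n)} (hu : ∀ i, |u i| ≤ B) : pt (g * w) u = pt g u := by
  refine pt_eq_iff.2 ⟨?_, ?_⟩
  · rw [mul_inv_rev, inv_mul_cancel_right]
    exact le_of_near hw.2 hu
  · rw [inv_mul_cancel_left]
    exact le_of_near hw.1 hu

omit [IsUltrametricDist K] in
lemma ent_le {c : ℝ} {x y : EuclideanSpace ℝ (Fin n)} {g : GL (Fin n) K} (h : Le x g y)
    (hx : ∀ i, |x i| ≤ c) (hy : ∀ i, |y i| ≤ c) (i j : Fin n) :
    ‖g.val i j‖ ≤ Real.exp (2 * c) := by
  have h1 := (le_div_iff₀ (Real.exp_pos _)).2 (h i j)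
  rw [← Real.exp_sub] at h1
  exact h1.trans (Real.exp_le_exp.2 (by linarith [abs_le.1 (hx i), abs_le.1 (hy j)]))

/-- A ball is covered by a bounded number of apartments through its centre. -/
lemma cover [ProperSpace K] [MetricSpace (Bld K n)] (hA : Apt K n) (R : ℝ) :
    ∃ m : ℕ, ∀ z : Bld K n, ∃ S : Finset (GL (Fin n) K), S.card ≤ m ∧
      ∀ β, dist β z ≤ R → ∃ g ∈ S, ∃ x y, z = pt g x ∧ β = pt g y := by
  classical
  obtain ⟨c, hc0, hc⟩ := exists_scale K
  obtain ⟨S, hS⟩ := net (K := K) (n := n) (Real.exp (2 * c)) (Real.exp_pos (-(2 * (c + |R|))))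
  refine ⟨S.card, fun z => ?_⟩
  obtain ⟨h₀, x₀, e₀⟩ := exists_pt z
  obtain ⟨h, x₁, -, e₁, -, hx₁⟩ := normalise hc h₀ x₀ x₀
  refine ⟨S.image fun g => h * g, card_image_le, fun β hβ => ?_⟩
  obtain ⟨f₀, x₂, y₂, e₂, e₃⟩ := hA.c z β
  obtain ⟨f, x, y, e₄, e₅, hx⟩ := normalise hc f₀ x₂ y₂
  have e₆ := pt_eq_iff.1 ((e₀.trans e₁).symm.trans (e₂.trans e₄))
  obtain ⟨g, hg, hw⟩ := hS (h⁻¹ * f) ⟨ent_le e₆.1 hx₁ hx, by
    rw [mul_inv_rev, inv_inv]; exact ent_le e₆.2 hx hx₁⟩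
  have e₇ : f = h * g * (g⁻¹ * (h⁻¹ * f)) := by group
  have hd : ‖y - x‖ ≤ |R| := by
    rw [← hA.d f, ← e₅, ← e₃, ← e₄, ← e₂]
    exact hβ.trans (le_abs_self R)
  have hy : ∀ i, |y i| ≤ c + |R| := fun i => by
    have h1 : |y i - x i| ≤ ‖y - x‖ := by
      simpa using PiLp.norm_apply_le (y - x) i
    have h2 := abs_add_le (y i - x i) (x i)
    rw [sub_add_cancel] at h2
    linarith [hx i]
  refine ⟨h * g, mem_image_of_mem _ hg, x, y, ?_, ?_⟩
  · rw [e₂, e₄, e₇]
    exact pt_near _ _ hw fun i => (hx i).trans (le_add_of_nonneg_right (abs_nonneg R))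
  · rw [e₃, e₅, e₇]
    exact pt_near _ _ hw hy

end PROP

open PROP in
theorem stPROP : St_PROP := by
  intro K _ _ _ n _ hA
  classical
  have hI : ∀ g : GL (Fin n) K, Isometry (pt g) := fun g =>
    Isometry.of_dist_eq fun x y => by rw [hA.d, dist_eq_norm]
  constructor
  · refine ⟨fun z R => ?_⟩
    obtain ⟨m, hm⟩ := cover hA R
    obtain ⟨S, -, hS⟩ := hm z
    have hc : ∀ g : GL (Fin n) K, IsCompact (pt g '' (pt g ⁻¹' Metric.closedBall z R)) :=
      fun g => by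
        refine IsCompact.image ?_ (hI g).continuous
        exact Metric.isCompact_of_isClosed_isBounded
          (Metric.isClosed_closedBall.preimage (hI g).continuous)
          ((hI g).antilipschitz.isBounded_preimage Metric.isBounded_closedBall)
    refine (S.isCompact_biUnion fun g _ => hc g).of_isClosed_subset Metric.isClosed_closedBall
      fun β hβ => ?_
    obtain ⟨g, hg, x, y, -, e⟩ := hS β hβ
    exact Set.mem_iUnion₂.2 ⟨g, hg, y, by rwa [Set.mem_preimage, ← e], e.symm⟩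
  · obtain ⟨m, hm⟩ := cover hA 2
    refine ⟨m * 5 ^ n, fun z ε h0 h1 F hF hs => ?_⟩
    obtain ⟨S, hc, hS⟩ := hm z
    have hsub : F ⊆ S.biUnion fun g => F.filter fun β => ∃ x y, z = pt g x ∧ β = pt g y :=
      fun β hβ => by
        obtain ⟨g, hg, h⟩ := hS β ((hF β hβ).trans (by linarith))
        exact mem_biUnion.2 ⟨g, hg, mem_filter.2 ⟨hβ, h⟩⟩
    refine (card_le_card hsub).trans ((card_biUnion_le_card_mul _ _ (5 ^ n) fun g _ => ?_).trans
      (Nat.mul_le_mul_right _ hc))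
    set T := F.filter fun β => ∃ x y, z = pt g x ∧ β = pt g y with hT
    rcases T.eq_empty_or_nonempty with h | ⟨β₀, h⟩
    · rw [h]; exact Nat.zero_le _
    obtain ⟨x, -, e, -⟩ := (mem_filter.1 h).2
    have h2 : ∀ β : Bld K n, ∃ y, β ∈ T → β = pt g y := fun β => by
      by_cases h3 : β ∈ T
      · obtain ⟨-, y, -, e'⟩ := (mem_filter.1 h3).2
        exact ⟨y, fun _ => e'⟩
      · exact ⟨0, fun h4 => (h3 h4).elim⟩
    choose y hy using h2
    have h3 : ∀ a ∈ T, ∀ b ∈ T, a ≠ b → 1 ≤ ‖ε⁻¹ • (y a - x) - ε⁻¹ • (y b - x)‖ :=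
      fun a ha b hb hab => by
        have h4 := hs a (mem_filter.1 ha).1 b (mem_filter.1 hb).1 hab
        rw [hy a ha, hy b hb, hA.d] at h4
        rw [← smul_sub, sub_sub_sub_cancel_right, norm_smul, norm_inv, Real.norm_of_nonneg h0.le,
          ← div_eq_inv_mul, le_div_iff₀ h0, one_mul]
        exact h4
    have h4 : Set.InjOn (fun a => ε⁻¹ • (y a - x)) T := fun a ha b hb hab => by
      by_contra h5
      have h6 := h3 a ha b hb h5
      rw [show ε⁻¹ • (y a - x) = ε⁻¹ • (y b - x) from hab, sub_self, norm_zero] at h6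
      linarith
    have h5 := Besicovitch.card_le_of_separated (T.image fun a => ε⁻¹ • (y a - x))
      (fun c hc => by
        obtain ⟨a, ha, rfl⟩ := mem_image.1 hc
        have h6 := hF a (mem_filter.1 ha).1
        rw [hy a ha, e, hA.d] at h6
        rw [norm_smul, norm_inv, Real.norm_of_nonneg h0.le, ← div_eq_inv_mul, div_le_iff₀ h0]
        exact h6)
      fun c hc d hd hcd => by
        obtain ⟨a, ha, rfl⟩ := mem_image.1 hc
        obtain ⟨b, hb, rfl⟩ := mem_image.1 hd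
        exact h3 a ha b hb fun h => hcd (by rw [h])
    rwa [card_image_of_injOn h4, finrank_euclideanSpace_fin] at h5

end Pool.Agent.Lib.BT
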