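import Pool.Agent.Lib.BT.Met0
import Pool.Agent.Lib.BT.PROP
import Pool.Agent.Lib.SD.All
import Pool.Agent.Lib.SD.CAT

/-! A group acting properly and coboundedly on a closed convex subset of the building. -/

noncomputable section

open Finset

namespace Pool.Agent.Lib.BT

open Pool.Agent.Lib.SD

/-- The group acts isometrically, properly and coboundedly on a proper, locally doubling metric
space with Bruhat-Tits midpoints, and has subexponential decay. -/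
def Model (Γ : Type) [Group Γ] : Prop :=
  ∃ (X : Type) (_ : MetricSpace X) (_ : MulAction Γ X) (_ : IsIsometricSMul Γ X)
    (_ : ProperSpace X) (o : X), HasCNMidpoints X ∧
    (∀ R : ℝ, {g : Γ | dist o (g • o) ≤ R}.Finite) ∧
    (∃ D : ℝ, ∀ x : X, ∃ g : Γ, dist x (g • o) ≤ D) ∧
    SubexpDecay (fun r => {g : Γ | dist o (g • o) ≤ r}) ∧
    (∀ S : Finset Γ, SubexpDecay (wordBall S)) ∧
    ∃ M : ℕ, ∀ (z : X) (ε : ℝ), 0 < ε → ε ≤ 1 → ∀ F : Finset X,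
      (∀ a ∈ F, dist a z ≤ 2 * ε) → (∀ a ∈ F, ∀ b ∈ F, a ≠ b → ε ≤ dist a b) → F.card ≤ M

variable {K : Type} [NontriviallyNormedField K] [IsUltrametricDist K] {n : ℕ}

variable (K n) in
/-- The metric of the building. -/
@[reducible] def met (hT : St_TB) (hK : St_KL) : MetricSpace (Bld K n) where
  dist := bdist
  dist_self := bdist_self hK
  dist_comm := bdist_comm hT hK
  dist_triangle := bdist_triangle hT hK
  eq_of_dist_eq_zero := eq_of_bdist hT hK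

lemma apt_met (hT : St_TB) (hK : St_KL) : @Apt K _ n (met K n hT hK) :=
  @Apt.mk K _ n (met K n hT hK) (bdist_pt hK) (common hT)

lemma norm_le_of {x : EuclideanSpace ℝ (Fin n)} {c : ℝ} (hc : 0 ≤ c) (h : ∀ i, |x i| ≤ c) :
    ‖x‖ ≤ n * c := by
  refine (abs_le_of_sq_le_sq' ?_ (by positivity)).2
  rw [EuclideanSpace.norm_sq_eq]
  calc ∑ i, ‖x i‖ ^ 2 ≤ ∑ _i : Fin n, c ^ 2 := sum_le_sum fun i _ =>
        pow_le_pow_left₀ (norm_nonneg _) (h i) 2
    _ = n * c ^ 2 := by simp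
    _ ≤ (n * c) ^ 2 := by
        have : (n : ℝ) ≤ n ^ 2 := by exact_mod_cast Nat.le_self_pow two_ne_zero n
        nlinarith [sq_nonneg c]

section Metric

variable [MetricSpace (Bld K n)] (hA : Apt K n)
include hA

omit [IsUltrametricDist K] in
lemma Apt.smul (g : GL (Fin n) K) (α β : Bld K n) : dist (g • α) (g • β) = dist α β := by
  obtain ⟨h, x, y, rfl, rfl⟩ := hA.c α β
  rw [smul_pt, smul_pt, hA.d, hA.d]

omit [IsUltrametricDist K] in
lemma Apt.near (g : GL (Fin n) K) {x : EuclideanSpace ℝ (Fin n)} {c : ℝ} (hc : 0 ≤ c)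
    (h : ∀ i, |x i| ≤ c) : dist (pt g x) (pt g 0) ≤ n * c := by
  rw [hA.d, sub_zero]
  exact norm_le_of hc h

omit [IsUltrametricDist K] in
lemma Apt.base (g h : GL (Fin n) K) :
    dist (pt (1 : GL (Fin n) K) 0) (pt (g⁻¹ * h) 0) = dist (pt g 0) (pt h 0) := by
  rw [← hA.smul g, smul_pt, smul_pt, mul_one, mul_inv_cancel_left]

lemma Apt.kc {g h : GL (Fin n) K} {r : ℝ} (H : dist (pt g 0) (pt h 0) ≤ r) :
    Kc (Real.exp r) (g⁻¹ * h) := (stENTR K n hA _ r).1 (by rwa [hA.base])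

lemma Apt.le_of_kc {g h : GL (Fin n) K} {r : ℝ} (hr : 0 ≤ r) (H : Kc (Real.exp r) (g⁻¹ * h)) :
    dist (pt g 0) (pt h 0) ≤ n * r := by
  rw [← hA.base]
  exact (stENTR K n hA _ r).2 hr H

variable {Γ : Type} [Group Γ] (ρ : Γ →* GL (Fin n) K) {Y : Set (Bld K n)} {o : Bld K n}

omit [IsUltrametricDist K] in
lemma Apt.orb (γ : Γ) (o : Bld K n) :
    dist (ρ γ • o) (pt (ρ γ) 0) = dist o (pt (1 : GL (Fin n) K) 0) := by
  rw [← hA.smul (ρ γ) o, smul_pt, mul_one]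

lemma Apt.mid (ho : o ∈ Y)
    (hm : ∀ g x y, pt g x ∈ Y → pt g y ∈ Y → pt g ((1 / 2 : ℝ) • (x + y)) ∈ Y)
    (hi : ∀ γ, ∀ α ∈ Y, ρ γ • α ∈ Y) (hD : ∃ D : ℝ, ∀ α ∈ Y, ∃ γ, dist α (pt (ρ γ) 0) ≤ D) :
    Mid ρ := by
  obtain ⟨D, hD⟩ := hD
  obtain ⟨c, c0, hc⟩ := PROP.exists_scale K
  set D₀ := dist o (pt (1 : GL (Fin n) K) 0) with hD₀
  have d0 : 0 ≤ D₀ := dist_nonneg
  have n0 : (0 : ℝ) ≤ n * c := by positivity
  refine ⟨Real.exp (D₀ + |D| + n * (3 * c)), fun γ => ?_⟩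
  obtain ⟨g₀, x₀, y₀, e₁, e₂⟩ := hA.c o (ρ γ • o)
  obtain ⟨g, x, y, e₃, e₄, hx⟩ := PROP.normalise hc g₀ x₀ y₀
  rw [← e₁] at e₃
  rw [← e₂] at e₄
  choose b hb h using fun i => hc ((y i - x i) / 2)
  obtain ⟨γ', h'⟩ := hD _ (hm g x y (e₃ ▸ ho) (e₄ ▸ hi γ o ho))
  have a1 := hA.near g c0 hx
  have a2 := hA.near (g * dg b hb * dg b hb) (x := y + dv (dg b hb) + dv (dg b hb)) (c := 3 * c)
    (by positivity) fun i => by
      have h1 := abs_le.1 (h i)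
      have h2 := abs_le.1 (hx i)
      simp only [PiLp.add_apply, dv_apply, dg_apply]
      rw [abs_le]
      constructor <;> linarith
  have a3 := hA.near (g * dg b hb) (x := (1 / 2 : ℝ) • (x + y) + dv (dg b hb)) (c := 3 * c)
    (by positivity) fun i => by
      have h1 := abs_le.1 (h i)
      have h2 := abs_le.1 (hx i)
      simp only [PiLp.add_apply, PiLp.smul_apply, dv_apply, dg_apply, smul_eq_mul]
      rw [abs_le]
      constructor <;> linarith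
  rw [← PROP.shift, ← PROP.shift, ← e₄] at a2
  rw [← PROP.shift] at a3
  rw [← e₃] at a1
  have a4 := hA.orb ρ γ o
  have a5 := le_abs_self D
  have a6 := abs_nonneg D
  refine ⟨g, dg b hb, (g * dg b hb * dg b hb)⁻¹ * ρ γ, γ', ?_, hA.kc ?_, dg_isDiag _ _,
    by rw [mul_inv_cancel_left], hA.kc ?_⟩
  · have := hA.kc (g := 1) (h := g) (r := D₀ + |D| + n * (3 * c)) (by
      linarith [dist_triangle_left (pt (1 : GL (Fin n) K) 0) (pt g 0) o])
    rwa [inv_one, one_mul] at this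
  · linarith [dist_triangle_left (pt (g * dg b hb * dg b hb) 0) (pt (ρ γ) 0) (ρ γ • o)]
  · linarith [dist_triangle_left (pt (ρ γ') 0) (pt (g * dg b hb) 0)
      (pt g ((1 / 2 : ℝ) • (x + y)))]

theorem Apt.model [ProperSpace K]
    (hcn : ∀ (g : GL (Fin n) K) x y (p : Bld K n), dist p (pt g ((1 / 2 : ℝ) • (x + y))) ^ 2 ≤
      (dist p (pt g x) ^ 2 + dist p (pt g y) ^ 2) / 2 - dist (pt g x) (pt g y) ^ 2 / 4)
    (hf : Fn ρ) (hcl : IsClosed Y) (ho : o ∈ Y)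
    (hm : ∀ g x y, pt g x ∈ Y → pt g y ∈ Y → pt g ((1 / 2 : ℝ) • (x + y)) ∈ Y)
    (hi : ∀ γ, ∀ α ∈ Y, ρ γ • α ∈ Y) (hD : ∃ D : ℝ, ∀ α ∈ Y, ∃ γ, dist α (pt (ρ γ) 0) ≤ D) :
    Model Γ := by
  have hs := SD.main ρ hf (hA.mid ρ ho hm hi hD)
  obtain ⟨hp, M, hM⟩ := stPROP K n hA
  obtain ⟨D, hD⟩ := hD
  set D₀ := dist o (pt (1 : GL (Fin n) K) 0) with hD₀
  have d0 : 0 ≤ D₀ := dist_nonneg
  let _ : MulAction Γ Y :=
    { smul := fun γ α => ⟨ρ γ • α.1, hi γ _ α.2⟩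
      one_smul := fun α => Subtype.ext (by
        change ρ 1 • α.1 = α.1
        rw [map_one, one_smul])
      mul_smul := fun γ δ α => Subtype.ext (by
        change ρ (γ * δ) • α.1 = ρ γ • ρ δ • α.1
        rw [map_mul, mul_smul]) }
  have hI : IsIsometricSMul Γ Y := ⟨fun γ => Isometry.of_dist_eq fun a b => hA.smul (ρ γ) a.1 b.1⟩
  have hb : ∀ (r : ℝ) (γ : Γ), dist (⟨o, ho⟩ : Y) (γ • ⟨o, ho⟩) ≤ r →
      Kc (Real.exp (r + 2 * D₀)) (ρ γ) := fun r γ h => by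
    have h1 : dist o (ρ γ • o) ≤ r := h
    have := hA.kc (g := 1) (h := ρ γ) (r := r + 2 * D₀) (by
      linarith [dist_triangle_left (pt (1 : GL (Fin n) K) 0) (pt (ρ γ) 0) o,
        dist_triangle o (ρ γ • o) (pt (ρ γ) 0), hA.orb ρ γ o])
    rwa [inv_one, one_mul] at this
  have hs' : SubexpDecay fun r => {g : Γ | dist (⟨o, ho⟩ : Y) (g • ⟨o, ho⟩) ≤ r} := fun ε hε => by
    obtain ⟨C, hC⟩ := hs ε hε
    refine ⟨C * Real.exp (ε * (2 * D₀)), fun r hr f g h => ?_⟩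
    have := hC (r + 2 * D₀) (by positivity) f g fun x hx => hb r x (h x hx)
    rwa [mul_add, add_comm, Real.exp_add, ← mul_assoc] at this
  classical
  refine ⟨Y, inferInstance, inferInstance, hI, ProperSpace.of_isClosed hcl, ⟨o, ho⟩,
    fun a b => ?_, fun R => (hf _).subset fun γ h => hb R γ h, ⟨D + D₀, fun x => ?_⟩, hs',
    CAT.word _ hs', M, fun z ε h0 h1 F h2 h3 => ?_⟩
  · obtain ⟨a, ha⟩ := a
    obtain ⟨b, hb⟩ := b
    obtain ⟨g, x, y, rfl, rfl⟩ := hA.c a b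
    exact ⟨⟨_, hm g x y ha hb⟩, fun p => hcn g x y p.1⟩
  · obtain ⟨γ, h⟩ := hD x.1 x.2
    refine ⟨γ, ?_⟩
    change dist x.1 (ρ γ • o) ≤ _
    linarith [dist_triangle_right x.1 (ρ γ • o) (pt (ρ γ) 0), hA.orb ρ γ o]
  · rw [← card_image_of_injective F Subtype.val_injective]
    refine hM z.1 ε h0 h1 _ (fun a ha => ?_) fun a ha b hb hab => ?_
    · obtain ⟨a, ha', rfl⟩ := mem_image.1 ha
      exact h2 a ha'
    · obtain ⟨a, ha', rfl⟩ := mem_image.1 ha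
      obtain ⟨b, hb', rfl⟩ := mem_image.1 hb
      exact h3 a ha' b hb' fun h => hab (by rw [h])

end Metric

end Pool.Agent.Lib.BT
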