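import Pool.Agent.Lib.SD.All
import Pool.Agent.Lib.SD.CAT

/-! A localisation property of metric spaces that is stable under products and convex subsets and
implies subexponential decay. -/

noncomputable section

open Finset Filter
open scoped Classical

namespace Pool.Agent.Lib.BT

open Pool.Agent.Lib.SD

/-- Points at distance at most `r` have nearly common representatives among few candidates. -/
def Red (X : Type) [MetricSpace X] : Prop :=
  ∃ L : ℝ, 0 ≤ L ∧ ∀ ε : ℝ, 0 < ε → ∀ᶠ r : ℝ in atTop, ∃ S : X → Finset X,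
    (∀ x, ((S x).card : ℝ) ≤ Real.exp (ε * r)) ∧ ∀ x y, dist x y ≤ r →
      ∃ u ∈ S x, ∃ u' ∈ S y, dist u u' ≤ ε * r ∧ dist u x ≤ L * r

section Sub

variable {X Y : Type} [MetricSpace X] [MetricSpace Y]

lemma Red.sub (hX : HasCNMidpoints X) (hY : HasCNMidpoints Y) [Nonempty Y] {f : Y → X}
    (hf : Isometry f) (h : Red X) : Red Y := by
  obtain ⟨L, L0, h⟩ := h
  have hm : ∀ a b : Y, ∃ m : Y, ∀ p : X, dist p (f m) ^ 2 ≤
      (dist p (f a) ^ 2 + dist p (f b) ^ 2) / 2 - dist (f a) (f b) ^ 2 / 4 := fun a b => by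
    obtain ⟨m, h1⟩ := hY a b
    obtain ⟨m', h2⟩ := hX (f a) (f b)
    obtain ⟨h3, h4⟩ := CAT.half h1
    have h5 := h2 (f m)
    rw [hf.dist_eq, hf.dist_eq, hf.dist_eq, dist_comm m a] at h5
    have h6 : dist (f m) m' ^ 2 ≤ 0 := by
      nlinarith [pow_le_pow_left₀ dist_nonneg h3 2, pow_le_pow_left₀ dist_nonneg h4 2]
    exact ⟨m, by rwa [dist_eq_zero.1 (pow_eq_zero_iff two_ne_zero |>.1 (h6.antisymm (sq_nonneg _)))]⟩
  let I : X → ℝ := fun u => ⨅ y, dist u (f y)
  have hI : ∀ u y, I u ≤ dist u (f y) := fun u y =>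
    ciInf_le ⟨0, by rintro _ ⟨y, rfl⟩; exact dist_nonneg⟩ y
  have I0 : ∀ u, 0 ≤ I u := fun u => le_ciInf fun _ => dist_nonneg
  choose π hπ using fun u => exists_lt_of_ciInf_lt (lt_add_one (I u))
  refine ⟨2 * L + 1, by positivity, fun ε hε => ?_⟩
  set δ := min ε (min 1 (ε ^ 2 / (24 * L + 36))) with hδ
  have δ0 : 0 < δ := by positivity
  have δ1 : δ ≤ 1 := (min_le_right _ _).trans (min_le_left _ _)
  have δ2 : δ * (24 * L + 36) ≤ ε ^ 2 :=
    (le_div_iff₀ (by positivity)).1 ((min_le_right _ _).trans (min_le_right _ _))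
  filter_upwards [h δ δ0, eventually_ge_atTop 1, eventually_ge_atTop (1 / δ)] with r ⟨S, h1, h2⟩
    r1 r2
  rw [div_le_iff₀ δ0] at r2
  refine ⟨fun y => (S (f y)).image π, fun y => le_trans (Nat.cast_le.2 card_image_le)
    ((h1 _).trans (Real.exp_le_exp.2 (by gcongr; exact min_le_left _ _))), fun x y hxy => ?_⟩
  obtain ⟨u, hu, u', hu', h3, h4⟩ := h2 (f x) (f y) (by rwa [hf.dist_eq])
  have h5 := (hI u x).trans h4
  refine ⟨_, mem_image_of_mem _ hu, _, mem_image_of_mem _ hu', ?_, ?_⟩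
  · obtain ⟨m, h6⟩ := hm (π u) (π u')
    have a1 := pow_le_pow_left₀ (I0 u) (hI u m) 2
    have a2 : I u' - dist u u' ≤ I u := le_ciInf fun y => by
      linarith [hI u' y, dist_triangle_left u' (f y) u]
    have a3 : dist u (f (π u)) ^ 2 ≤ (I u + 3 * (δ * r)) ^ 2 :=
      pow_le_pow_left₀ dist_nonneg (by nlinarith [hπ u]) 2
    have a4 : dist u (f (π u')) ^ 2 ≤ (I u + 3 * (δ * r)) ^ 2 :=
      pow_le_pow_left₀ dist_nonneg (by nlinarith [hπ u', dist_triangle u u' (f (π u'))]) 2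
    have a5 := h6 u
    rw [hf.dist_eq] at a5
    refine (abs_le_of_sq_le_sq' ?_ (by positivity)).2
    have a6 : I u * (δ * r) ≤ L * r * (δ * r) := by gcongr
    have a7 : δ * δ * r ^ 2 ≤ δ * r ^ 2 := by gcongr; nlinarith
    have a8 : δ * (24 * L + 36) * r ^ 2 ≤ ε ^ 2 * r ^ 2 := by gcongr
    nlinarith
  · rw [← hf.dist_eq]
    nlinarith [dist_triangle_left (f (π u)) (f x) u, hπ u]

lemma dist_sq (a b : WithLp 2 (X × Y)) :
    dist a b ^ 2 = dist a.fst b.fst ^ 2 + dist a.snd b.snd ^ 2 := by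
  rw [WithLp.prod_dist_eq_add (by norm_num)]
  simp only [ENNReal.toReal_ofNat, Real.rpow_ofNat]
  rw [← Real.sqrt_eq_rpow, Real.sq_sqrt (by positivity)]

lemma dist_le_add (a b : WithLp 2 (X × Y)) : dist a b ≤ dist a.fst b.fst + dist a.snd b.snd := by
  refine (abs_le_of_sq_le_sq' ?_ (by positivity)).2
  rw [dist_sq]
  nlinarith [mul_nonneg (dist_nonneg (x := a.fst) (y := b.fst))
    (dist_nonneg (x := a.snd) (y := b.snd))]

lemma cn_prod (hX : HasCNMidpoints X) (hY : HasCNMidpoints Y) :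
    HasCNMidpoints (WithLp 2 (X × Y)) := fun a b => by
  obtain ⟨m, h1⟩ := hX a.fst b.fst
  obtain ⟨m', h2⟩ := hY a.snd b.snd
  refine ⟨WithLp.toLp 2 (m, m'), fun p => ?_⟩
  simp only [dist_sq, WithLp.toLp_fst, WithLp.toLp_snd]
  linarith [h1 p.fst, h2 p.snd]

lemma proper_prod [ProperSpace X] [ProperSpace Y] : ProperSpace (WithLp 2 (X × Y)) :=
  ⟨fun a r => (((isCompact_closedBall a.fst r).prod (isCompact_closedBall a.snd r)).image
    (WithLp.prod_continuous_toLp 2 X Y)).of_isClosed_subset Metric.isClosed_closedBall fun b hb =>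
      ⟨b.ofLp, ⟨(WithLp.dist_fst_le b a).trans hb, (WithLp.dist_snd_le b a).trans hb⟩, rfl⟩⟩

lemma Red.prod (hX : Red X) (hY : Red Y) : Red (WithLp 2 (X × Y)) := by
  obtain ⟨L, L0, hX⟩ := hX
  obtain ⟨L', L0', hY⟩ := hY
  refine ⟨L + L', by positivity, fun ε hε => ?_⟩
  filter_upwards [hX _ (half_pos hε), hY _ (half_pos hε)] with r ⟨S, h1, h2⟩ ⟨S', h3, h4⟩
  refine ⟨fun a => (S a.fst ×ˢ S' a.snd).image (WithLp.toLp 2), fun a => ?_, fun a b h => ?_⟩
  · refine le_trans (Nat.cast_le.2 card_image_le) ?_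
    rw [card_product, Nat.cast_mul, show ε * r = ε / 2 * r + ε / 2 * r by ring, Real.exp_add]
    exact mul_le_mul (h1 _) (h3 _) (by positivity) (by positivity)
  · obtain ⟨u, hu, u', hu', a1, a2⟩ := h2 _ _ ((WithLp.dist_fst_le a b).trans h)
    obtain ⟨v, hv, v', hv', a3, a4⟩ := h4 _ _ ((WithLp.dist_snd_le a b).trans h)
    refine ⟨_, mem_image_of_mem _ (mk_mem_product hu hv), _,
      mem_image_of_mem _ (mk_mem_product hu' hv'), (dist_le_add _ _).trans ?_,
      (dist_le_add _ _).trans ?_⟩ <;> simp only [WithLp.toLp_fst, WithLp.toLp_snd] <;> linarith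

/-- Spaces that are coarsely the general linear group. -/
lemma red_GL {K : Type} [NontriviallyNormedField K] {n : ℕ} (f : GL (Fin n) K → X) {D A : ℝ}
    (A0 : 0 ≤ A) (h1 : ∀ x, ∃ g, dist x (f g) ≤ D)
    (h2 : ∀ g h r, dist (f g) (f h) ≤ r → Kc (Real.exp r) (g⁻¹ * h))
    (h3 : ∀ g h r, 0 ≤ r → Kc (Real.exp r) (g⁻¹ * h) → dist (f g) (f h) ≤ A * (r + 1)) :
    Red X := by
  obtain ⟨C, M, M0, hM⟩ := RMb.redm stCAR K n
  choose g hg using h1
  refine ⟨A * (3 * M + 1) + 1, by positivity, fun ε hε => ?_⟩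
  filter_upwards [REDG.ev_pow n (show 0 < 2 * M by positivity) hε, eventually_ge_atTop 1,
    eventually_ge_atTop (2 * |D|), eventually_ge_atTop (A * (|C| + 1) / ε)] with r r0 r1 r2 r3
  obtain ⟨S, a1, a2⟩ := hM (2 * r) (by positivity)
  have d1 := le_abs_self D
  have d2 := abs_nonneg D
  refine ⟨fun x => (S (g x)).image f, fun x => le_trans (Nat.cast_le.2 card_image_le)
    ((a1 _).trans (le_trans ?_ r0)), fun x y hxy => ?_⟩
  · gcongr ?_ ^ n
    nlinarith
  · obtain ⟨u, hu, u', hu', a3, a4⟩ := a2 _ _ (h2 (g x) (g y) _ (by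
      linarith [dist_triangle4_left x y (f (g x)) (f (g y)), hg x, hg y]))
    refine ⟨_, mem_image_of_mem _ hu, _, mem_image_of_mem _ hu', ?_, ?_⟩
    · rw [div_le_iff₀' hε] at r3
      exact (h3 _ _ _ (abs_nonneg C) (a3.mono (by
        linarith [le_abs_self C, Real.add_one_le_exp |C|]))).trans r3
    · have a5 := h3 _ _ _ (by positivity) a4
      have a6 : A * (M * (2 * r + 1) + 1) ≤ A * ((3 * M + 1) * r) := by gcongr; nlinarith
      nlinarith [dist_triangle_right (f u) x (f (g x)), hg x]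

end Sub

variable {Γ X : Type} [Group Γ] [MetricSpace X] [MulAction Γ X] [IsIsometricSMul Γ X]

open CAT in
theorem Red.geo (hC : HasCNMidpoints X) (hT : Red X) (o : X)
    (hp : ∀ R : ℝ, {g : Γ | dist o (g • o) ≤ R}.Finite)
    (hD : ∃ D : ℝ, ∀ x : X, ∃ g : Γ, dist x (g • o) ≤ D) :
    Geo (fun g : Γ => dist o (g • o)) fun r => {g : Γ | dist o (g • o) ≤ r} := by
  obtain ⟨D, hD⟩ := hD
  have D0 : 0 ≤ D := by obtain ⟨g, hg⟩ := hD o; exact dist_nonneg.trans hg
  refine ⟨fun _ => dist_nonneg, fun r g hg => ?_, grow hC o hp hD, ⟨2 * D, by positivity,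
    fun g => ?_⟩, ?_⟩
  · change dist o (g⁻¹ • o) ≤ r
    rw [← dist_smul g, smul_inv_smul, dist_comm]
    exact hg
  · obtain ⟨m, hm⟩ := hC o (g • o)
    obtain ⟨h, hh⟩ := hD m
    refine ⟨h, fun p => ?_⟩
    have h1 := hm (p • o)
    have h2 := dist_triangle (p • o) m (h • o)
    simp only [d_eq]
    rw [dist_comm (h • o), dist_comm o (p • o), dist_comm (g • o) (p • o)]
    have a1 := dist_nonneg (x := p • o) (y := m)
    have a2 := dist_nonneg (x := p • o) (y := o)
    have a3 := dist_nonneg (x := p • o) (y := g • o)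
    have a4 := dist_nonneg (x := p • o) (y := h • o)
    generalize dist (p • o) m = d at *
    generalize dist (p • o) o = A at *
    generalize dist (p • o) (g • o) = B at *
    generalize dist (p • o) (h • o) = e at *
    have a5 := sq_nonneg (dist o (g • o))
    generalize dist o (g • o) ^ 2 = G at *
    have a6 : d ≤ A + B := by nlinarith
    have a7 : e ^ 2 ≤ (d + D) ^ 2 := by gcongr; linarith
    nlinarith
  · obtain ⟨L, L0, hT⟩ := hT
    obtain ⟨C₁, C₂, c1, c2, hg⟩ := grow hC o hp hD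
    have hc : ∀ R, ((hp R).toFinset.card : ℝ) ≤ Real.exp (C₂ + C₁ * R) := fun R => by
      have h1 := card_nsmul_le_sum (hp R).toFinset (fun g => Real.exp (-(C₁ * dist o (g • o))))
        (Real.exp (-(C₁ * R))) fun g hg => Real.exp_le_exp.2 (neg_le_neg
          (mul_le_mul_of_nonneg_left (by simpa using hg) c1.le))
      have h2 := h1.trans (hg _)
      rw [nsmul_eq_mul, Real.exp_neg, mul_inv_le_iff₀ (Real.exp_pos _), ← Real.exp_add] at h2
      exact h2
    choose γ hγ using hD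
    refine ⟨L + 2, by positivity, fun ε hε => eventually_atTop.1 ?_⟩
    set δ := ε / (C₁ + 2) with hδ
    have δ0 : 0 < δ := by positivity
    have δ1 : δ * (C₁ + 2) = ε := by rw [hδ]; field_simp
    filter_upwards [hT δ δ0, eventually_ge_atTop D,
      eventually_ge_atTop ((C₂ + C₁ * (2 * D)) / δ)] with r ⟨S, h1, h2⟩ r1 r2
    rw [div_le_iff₀ δ0] at r2
    refine ⟨fun x => (S (x • o)).biUnion fun u =>
      (hp (δ * r + 2 * D)).toFinset.image (γ u * ·), fun x => ?_, fun x y hxy => ?_⟩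
    · have h3 : (((S (x • o)).biUnion fun u =>
          (hp (δ * r + 2 * D)).toFinset.image (γ u * ·)).card : ℝ) ≤
          (S (x • o)).card * (hp (δ * r + 2 * D)).toFinset.card := by
        exact_mod_cast card_biUnion_le_card_mul _ _ _ fun u _ => card_image_le
      refine h3.trans ((mul_le_mul (h1 _) (hc _) (by positivity) (by positivity)).trans ?_)
      rw [← Real.exp_add, Real.exp_le_exp, ← δ1]
      nlinarith
    · have e1 : dist (x • o) (y • o) ≤ r := by rw [← d_eq]; exact hxy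
      obtain ⟨u, hu, u', hu', a1, a2⟩ := h2 _ _ e1
      have a3 := dist_triangle_left (γ u • o) (x • o) u
      have a4 := hγ u
      have a5 := dist_nonneg.trans a1
      refine ⟨γ u, mem_biUnion.2 ⟨u, hu, mem_image.2 ⟨1, ?_, mul_one _⟩⟩,
        mem_biUnion.2 ⟨u', hu', mem_image.2 ⟨(γ u')⁻¹ * γ u, ?_, by group⟩⟩, ?_, ?_⟩
      · simp only [Set.Finite.mem_toFinset, Set.mem_ofPred_eq, one_smul, dist_self]
        positivity
      · simp only [Set.Finite.mem_toFinset, Set.mem_ofPred_eq, d_eq]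
        linarith [dist_triangle4_left u' u (γ u' • o) (γ u • o), hγ u', dist_comm u u']
      · simp only [d_eq]; linarith
      · simp only [d_eq]; linarith [dist_triangle (γ u • o) (x • o) (y • o)]

theorem Red.decay (hC : HasCNMidpoints X) (hT : Red X) (o : X)
    (hp : ∀ R : ℝ, {g : Γ | dist o (g • o) ≤ R}.Finite)
    (hD : ∃ D : ℝ, ∀ x : X, ∃ g : Γ, dist x (g • o) ≤ D) :
    SubexpDecay fun r => {g : Γ | dist o (g • o) ≤ r} :=
  thmN.sd _ (fun _ _ h _ hg => le_trans hg h) (thmA _ _ (hT.geo hC o hp hD))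

end Pool.Agent.Lib.BT
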