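import Mathlib

/-! Stabilisers of tensors in the special linear group. -/

noncomputable section

open Finset

namespace Pool.Agent.Lib.BT

variable {K : Type} [Field K] {n m : ℕ}

/-- The form `(v j) ↦ ∑ I, t I * ∏ j, σ j (v j (I j))` evaluated on the columns of `g`: the
coefficients of the form in the basis given by the columns of `g`. -/
def act (σ : Fin m → K →+* K) (t : (Fin m → Fin n) → K) (g : Matrix (Fin n) (Fin n) K) :
    (Fin m → Fin n) → K := fun J => ∑ I, t I * ∏ j, σ j (g (I j) (J j))

lemma act_one (σ : Fin m → K →+* K) (t : (Fin m → Fin n) → K) : act σ t 1 = t := by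
  funext J
  rw [act, sum_eq_single J]
  · simp
  · intro I _ h
    obtain ⟨j, hj⟩ := Function.ne_iff.1 h
    rw [prod_eq_zero (mem_univ j) (by rw [Matrix.one_apply_ne hj, map_zero]), mul_zero]
  · simp

lemma act_mul (σ : Fin m → K →+* K) (t : (Fin m → Fin n) → K) (g h : Matrix (Fin n) (Fin n) K) :
    act σ t (g * h) = act σ (act σ t g) h := by
  funext J
  simp only [act, Matrix.mul_apply, map_sum, map_mul, sum_mul, Fintype.prod_sum, mul_sum,
    prod_mul_distrib, mul_assoc]
  exact sum_comm

/-- The matrices of determinant one that preserve all forms of a family. -/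
def stab {ι : Type} {a : ι → ℕ} (σ : ∀ i, Fin (a i) → K →+* K)
    (t : ∀ i, (Fin (a i) → Fin n) → K) : Subgroup (Matrix.SpecialLinearGroup (Fin n) K) where
  carrier := {g | ∀ i, act (σ i) (t i) g.1 = t i}
  one_mem' i := act_one _ _
  mul_mem' {g h} hg hh i := by
    rw [Matrix.SpecialLinearGroup.coe_mul, act_mul, hg i, hh i]
  inv_mem' {g} hg i := by
    rw [← hg i, ← act_mul, ← Matrix.SpecialLinearGroup.coe_mul, mul_inv_cancel,
      Matrix.SpecialLinearGroup.coe_one, act_one, hg i]

end Pool.Agent.Lib.BT
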